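import Pool.Agent.TH62.PL.Basic

set_option autoImplicit false

/-! Hall subgroups, cores, iterated commutators. -/

namespace Pool.Agent.TH62.PL

open scoped commutatorElement

section groups
variable {G : Type} [Group G] {σ π : Set ℕ}

/-! ### index lemmas -/

/-- for `N` normal, `|N : N ∩ L|` divides `|G : L|` -/
lemma relIndex_dvd_index [Finite G] (L N : Subgroup G) (hN : N.Normal) :
    L.relIndex N ∣ L.index := by
  have h1 : L.relIndex N = L.relIndex (L ⊔ N) := by
    have e1 : Nat.card (L ⊔ N : Subgroup G) = Nat.card N * N.relIndex L := by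
      rw [← Subgroup.relIndex_sup_right L N, ← Subgroup.relIndex_bot_left,
        ← Subgroup.relIndex_bot_left N,
        Subgroup.relIndex_mul_relIndex _ _ _ bot_le le_sup_right]
    have e2 : Nat.card (L ⊔ N : Subgroup G) = Nat.card L * L.relIndex (L ⊔ N) := by
      rw [← Subgroup.relIndex_bot_left, ← Subgroup.relIndex_bot_left L,
        Subgroup.relIndex_mul_relIndex _ _ _ bot_le le_sup_left]
    have e3 : Nat.card L = Nat.card (L ⊓ N : Subgroup G) * N.relIndex L := by
      rw [← Subgroup.inf_relIndex_right N L, inf_comm N L, ← Subgroup.relIndex_bot_left L,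
        ← Subgroup.relIndex_bot_left (L ⊓ N),
        Subgroup.relIndex_mul_relIndex _ _ _ bot_le inf_le_left]
    have e4 : Nat.card N = Nat.card (L ⊓ N : Subgroup G) * L.relIndex N := by
      rw [← Subgroup.inf_relIndex_right L N, ← Subgroup.relIndex_bot_left N,
        ← Subgroup.relIndex_bot_left (L ⊓ N),
        Subgroup.relIndex_mul_relIndex _ _ _ bot_le inf_le_right]
    apply Nat.eq_of_mul_eq_mul_left (Nat.card_pos (α := L))
    calc Nat.card L * L.relIndex N
        = (Nat.card (L ⊓ N : Subgroup G) * L.relIndex N) * N.relIndex L := by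
          rw [e3]; ring
      _ = Nat.card N * N.relIndex L := by rw [← e4]
      _ = Nat.card L * L.relIndex (L ⊔ N) := by rw [← e1, e2]
  rw [h1]
  exact Subgroup.relIndex_dvd_index_of_le le_sup_left

/-! ### Hall subgroups -/

lemma IsHall.inf [Finite G] {L : Subgroup G} (h : IsHall π L) {N : Subgroup G} (hN : N.Normal) :
    PN πᶜ (L.relIndex N) := h.2.of_dvd (relIndex_dvd_index L N hN)

lemma IsHall.map {H : Type} [Group H] {L : Subgroup G} (h : IsHall π L) (f : G →* H)
    (hf : Function.Surjective f) : IsHall π (L.map f) := by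
  refine ⟨?_, h.2.of_dvd (Subgroup.index_map_dvd L hf)⟩
  have := h.1.map f
  rwa [Subgroup.map_bot] at this

lemma IsHall.subgroupOf {L : Subgroup G} (h : IsHall π L) {K : Subgroup G} (hLK : L ≤ K) :
    IsHall π (L.subgroupOf K) := by
  refine ⟨?_, h.2.of_dvd (Subgroup.relIndex_dvd_index_of_le hLK)⟩
  have := h.1.comap K.subtype
  rwa [MonoidHom.comap_bot, Subgroup.ker_subtype] at this

/-- a normal subgroup which is a `π`-group modulo `N ≤ T` is contained in `T` if `T` has `π'`-index
in it -/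
lemma le_of_PF [Finite G] {N R T : Subgroup G} (hN : Inv R N) (hNT : N ≤ T)
    (h : PF π N R) (hT : PN πᶜ (T.relIndex R)) : R ≤ T := by
  have h1 : PN π (N.relIndex R) := (PF.iff_relIndex hN).1 h
  have h2 : PN π (T.relIndex R) := h1.of_dvd (Subgroup.relIndex_dvd_of_le_left R hNT)
  exact Subgroup.relIndex_eq_one.1 (h2.eq_one hT)

/-- a normal `π`-subgroup lies in every Hall `π`-subgroup -/
lemma IsHall.normal_le [Finite G] {L : Subgroup G} (h : IsHall π L) {R : Subgroup G}
    (hR : R.Normal) (hR' : PF π ⊥ R) : R ≤ L :=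
  le_of_PF (Inv.bot R) bot_le hR' (h.inf hR)

/-- relative version -/
lemma IsHall.normal_le_sup [Finite G] {L : Subgroup G} (h : IsHall π L) {N R : Subgroup G}
    (hN : N.Normal) (hR : R.Normal) (hR' : PF π N R) : R ≤ L ⊔ N :=
  le_of_PF (Inv.of_normal _ hN) le_sup_right hR'
    ((h.inf hR).of_dvd (Subgroup.relIndex_dvd_of_le_left R le_sup_left))

/-- a normal subgroup containing a Hall `π`-subgroup has `π'`-quotient -/
lemma IsHall.PF_top {L : Subgroup G} (h : IsHall π L) {N : Subgroup G}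
    (hN : N.Normal) (hLN : L ≤ N) : PF πᶜ N ⊤ := by
  intro x _
  refine ⟨N.index, h.2.of_dvd (Subgroup.index_dvd_of_le hLN), ?_⟩
  exact N.pow_index_mem x

/-- if `L ∩ N ≤ N₁ ≤ N` with `N₁` normalised by `N`, then `N/N₁` is a `π'`-group -/
lemma IsHall.PF_inf [Finite G] {L : Subgroup G} (h : IsHall π L) {N N₁ : Subgroup G}
    (hN : N.Normal) (hN₁ : Inv N N₁) (hLN : L ⊓ N ≤ N₁) : PF πᶜ N₁ N := by
  rw [PF.iff_relIndex hN₁]
  refine (h.inf hN).of_dvd ?_
  rw [← Subgroup.inf_relIndex_right L N]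
  exact Subgroup.relIndex_dvd_of_le_left N hLN

/-! ### solvability -/

lemma isSolvable_iff_DS (L : Subgroup G) : Group.IsSolvable L ↔ ∃ n, DS L n = ⊥ := by
  constructor
  · rintro ⟨n, hn⟩
    exact ⟨n, by rw [DS.eq_map_derivedSeries, hn, Subgroup.map_bot]⟩
  · rintro ⟨n, hn⟩
    refine ⟨n, ?_⟩
    rw [DS.eq_map_derivedSeries] at hn
    exact (Subgroup.map_eq_bot_iff_of_injective _ L.subtype_injective).1 hn

lemma DS_add (L : Subgroup G) (m n : ℕ) : DS L (m + n) = DS (DS L m) n := by
  induction n with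
  | zero => rfl
  | succ n ih =>
    rw [← add_assoc, show DS L (m + n + 1) = ⁅DS L (m + n), DS L (m + n)⁆ from rfl, ih]; rfl

/-- if `H/(H ∩ N)` is a finite `q`-group then some derived subgroup of `H` lies in `N` -/
lemma DS_le_of_PF [Finite G] {q : ℕ} (hq : q.Prime) {H N : Subgroup G} (hN : N.Normal)
    (h : PF {q} N H) : ∃ n, DS H n ≤ N := by
  have := Fact.mk hq
  have h1 : IsPGroup q (H.map (QuotientGroup.mk' N)) := by
    rintro ⟨_, x, hx, rfl⟩
    obtain ⟨m, hm, hm'⟩ := h x hx
    obtain ⟨k, rfl⟩ := hm.eq_prime_pow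
    refine ⟨k, ?_⟩
    apply Subtype.ext
    simp only [Subgroup.coe_pow, Subgroup.coe_one, QuotientGroup.mk'_apply]
    rw [← QuotientGroup.mk_pow, QuotientGroup.eq_one_iff]
    exact hm'
  have h2 : Group.IsNilpotent (H.map (QuotientGroup.mk' N)) := h1.isNilpotent
  have h3 : Group.IsSolvable (H.map (QuotientGroup.mk' N)) := inferInstance
  obtain ⟨n, hn⟩ := (isSolvable_iff_DS _).1 h3
  refine ⟨n, ?_⟩
  rw [← DS.map, Subgroup.map_eq_bot_iff, QuotientGroup.ker_mk'] at hn
  exact hn

/-- `π`-subgroups of `π`-soluble groups are solvable -/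
lemma PSol.isSolvable [Finite G] (hG : PSol π G) (hπ : ∀ p ∈ π, p.Prime) {H : Subgroup G}
    (hH : PF π ⊥ H) : Group.IsSolvable H := by
  obtain ⟨m, S, h0, h1, h2, h3, h4⟩ := hG
  rw [isSolvable_iff_DS]
  have key : ∀ i ≤ m, ∃ n, DS (H ⊓ S i) n = ⊥ := by
    intro i
    induction i with
    | zero => intro _; exact ⟨0, by rw [h0]; simp [DS]⟩
    | succ i ih =>
      intro hi
      obtain ⟨n, hn⟩ := ih (by omega)
      have hHi : ∃ n', DS (H ⊓ S (i + 1)) n' ≤ H ⊓ S i := by
        rcases h4 i (by omega) with h | ⟨q, hq, h⟩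
        · have h5 : PF π (H ⊓ S i) (H ⊓ S (i + 1)) := by
            intro b hb
            obtain ⟨m, hm, hm'⟩ := hH b hb.1
            exact ⟨m, hm, by rw [Subgroup.mem_bot.1 hm']; exact Subgroup.one_mem _⟩
          have h6 : PF πᶜ (H ⊓ S i) (H ⊓ S (i + 1)) := (PF.refl H).inf h
          exact ⟨0, h5.le_of_compl h6⟩
        · have h5 : PF {q} (S i) (H ⊓ S (i + 1)) := h.mono le_rfl inf_le_right
          obtain ⟨n', hn'⟩ := DS_le_of_PF (hπ q hq) (h3 i) h5
          exact ⟨n', le_inf ((DS.le _ _).trans inf_le_left) hn'⟩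
      obtain ⟨n', hn'⟩ := hHi
      refine ⟨n' + n, ?_⟩
      rw [DS_add, eq_bot_iff, ← hn]
      exact DS.mono hn' n
  obtain ⟨n, hn⟩ := key m le_rfl
  exact ⟨n, by rwa [h1, inf_top_eq] at hn⟩

/-! ### cores -/

/-- the largest normal subgroup containing `N` which is a `σ`-group modulo `N` -/
lemma exists_core [Finite G] (σ : Set ℕ) (N : Subgroup G) (hN : N.Normal) :
    ∃ R : Subgroup G, R.Normal ∧ N ≤ R ∧ PF σ N R ∧
      ∀ A : Subgroup G, A.Normal → N ≤ A → PF σ N A → A ≤ R := by
  classical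
  obtain ⟨R, hR⟩ := Set.Finite.exists_maximal
    (Set.toFinite {R : Subgroup G | R.Normal ∧ N ≤ R ∧ PF σ N R})
    ⟨N, hN, le_rfl, PF.refl N⟩
  refine ⟨R, hR.1.1, hR.1.2.1, hR.1.2.2, fun A hA hNA hA' => ?_⟩
  have hRn := hR.1.1
  have h1 : PF σ R (A ⊔ R) := by
    have := hA'.supN hRn
    rwa [sup_eq_right.2 hR.1.2.1] at this
  have h2 : A ⊔ R ∈ {R : Subgroup G | R.Normal ∧ N ≤ R ∧ PF σ N R} :=
    ⟨Subgroup.sup_normal A R, hNA.trans le_sup_left, hR.1.2.2.trans h1⟩
  exact le_sup_left.trans (hR.2 h2 le_sup_right)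

/-- the core is invariant under every automorphism preserving `N` -/
lemma core_map {σ : Set ℕ} {N R : Subgroup G} (hR : R.Normal) (hNR : N ≤ R) (hPF : PF σ N R)
    (hmax : ∀ A : Subgroup G, A.Normal → N ≤ A → PF σ N A → A ≤ R) (φ : G ≃* G)
    (hφ : N.map φ.toMonoidHom = N) : R.map φ.toMonoidHom ≤ R := by
  apply hmax
  · exact hR.map _ φ.surjective
  · rw [← hφ]; exact Subgroup.map_mono hNR
  · have := hPF.map φ.toMonoidHom
    rwa [hφ] at this

/-! ### iterated commutators -/

lemma CE.mono {P P' : Subgroup G} {D : ℕ → Subgroup G} (h : P ≤ P') (i : ℕ) :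
    CE P D i ≤ CE P' D i := by
  induction i with
  | zero => exact h
  | succ i ih => exact Subgroup.commutator_mono ih le_rfl

lemma CE.map {H : Type} [Group H] (f : G →* H) (P L : Subgroup G) (i : ℕ) :
    (CE P (DS L) i).map f = CE (P.map f) (DS (L.map f)) i := by
  induction i with
  | zero => rfl
  | succ i ih =>
    rw [show CE P (DS L) (i + 1) = ⁅CE P (DS L) i, DS L i⁆ from rfl, Subgroup.map_commutator, ih,
      DS.map]; rfl

lemma CE.inv {K P L : Subgroup G} (hP : Inv K P) (hL : Inv K L) (i : ℕ) :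
    Inv K (CE P (DS L) i) := by
  induction i with
  | zero => exact hP
  | succ i ih =>
    refine ih.commutator ?_
    clear ih
    induction i with
    | zero => exact hL
    | succ i ih => exact ih.commutator ih

lemma CE.succ_le {P L : Subgroup G} (hP : Inv L P) (i : ℕ) :
    CE P (DS L) (i + 1) ≤ CE P (DS L) i := by
  have h := CE.inv hP (Inv.self L) i
  rw [show CE P (DS L) (i + 1) = ⁅CE P (DS L) i, DS L i⁆ from rfl, Subgroup.commutator_le]
  intro a ha b hb
  have h1 := h b (DS.le L i hb) a⁻¹ (inv_mem ha)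
  rw [commutatorElement_def]
  simpa [mul_assoc] using mul_mem ha h1

lemma CE.le {P L : Subgroup G} (hP : Inv L P) (i : ℕ) : CE P (DS L) i ≤ P := by
  induction i with
  | zero => exact le_rfl
  | succ i ih => exact (CE.succ_le hP i).trans ih

lemma CE.le_DS {P L : Subgroup G} (h : P ≤ L) (i : ℕ) : CE P (DS L) i ≤ DS L i := by
  induction i with
  | zero => exact h
  | succ i ih => exact Subgroup.commutator_mono ih le_rfl

/-- working modulo a normal subgroup -/
lemma CE.le_sup {P P' L N : Subgroup G} (hN : N.Normal) (h : P ≤ P' ⊔ N) (i : ℕ) :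
    CE P (DS L) i ≤ CE P' (DS L) i ⊔ N := by
  have h1 : P.map (QuotientGroup.mk' N) ≤ P'.map (QuotientGroup.mk' N) := by
    rw [Subgroup.map_le_iff_le_comap, Subgroup.comap_map_eq, QuotientGroup.ker_mk']
    exact h
  have h2 := CE.mono (D := DS (L.map (QuotientGroup.mk' N))) h1 i
  rw [← CE.map, ← CE.map, Subgroup.map_le_iff_le_comap, Subgroup.comap_map_eq,
    QuotientGroup.ker_mk'] at h2
  exact h2

/-- transfer of the length from a supplement -/
lemma Len.of_supplement {T N : Subgroup G} (hN : N.Normal)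
    (hT : ∀ g : G, ∃ m ∈ N, ∃ t ∈ T, g = m * t) {n : ℕ} (h : Len π n (N.subgroupOf T)) :
    Len π n N := by
  set f : T →* G ⧸ N := (QuotientGroup.mk' N).comp T.subtype with hf
  have hsurj : Function.Surjective f := by
    intro y
    induction y using QuotientGroup.induction_on with
    | H g =>
      obtain ⟨m, hm, t, ht, rfl⟩ := hT g
      refine ⟨⟨t, ht⟩, ?_⟩
      change (QuotientGroup.mk t : G ⧸ N) = QuotientGroup.mk (m * t)
      rw [QuotientGroup.eq]
      have := hN.conj_mem m hm t⁻¹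
      simpa [mul_assoc] using this
  have h1 := h.map f hsurj
  have h2 : (N.subgroupOf T).map f = ⊥ := by
    rw [eq_bot_iff]
    rintro _ ⟨x, hx, rfl⟩
    exact (QuotientGroup.eq_one_iff (x : G)).2 hx
  rw [h2] at h1
  have h3 := h1.comap (QuotientGroup.mk' N)
  rwa [MonoidHom.comap_bot, QuotientGroup.ker_mk'] at h3

end groups

end Pool.Agent.TH62.PL
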