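import Pool.Agent.TH62.PL.Basic

set_option autoImplicit false

/-! Commutator submodules. -/

namespace Pool.Agent.TH62.PL

open scoped commutatorElement

section modules
variable {G k V : Type} [Group G] [Field k] [AddCommGroup V] [Module k V]
  {ρ : G →* Module.End k V}

lemma rho_mul (g h : G) (v : V) : ρ (g * h) v = ρ g (ρ h v) := by
  rw [map_mul]; rfl

lemma rho_inv_apply (g : G) (v : V) : ρ g⁻¹ (ρ g v) = v := by
  rw [← rho_mul, inv_mul_cancel, map_one]; rfl

lemma rho_apply_inv (g : G) (v : V) : ρ g (ρ g⁻¹ v) = v := by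
  rw [← rho_mul, mul_inv_cancel, map_one]; rfl

lemma mem_cm {W : Submodule k V} {D : Subgroup G} {g : G} {w : V} (hg : g ∈ D) (hw : w ∈ W) :
    ρ g w - w ∈ cm ρ W D := Submodule.subset_span ⟨g, hg, w, hw, rfl⟩

lemma cm_le {W U : Submodule k V} {D : Subgroup G} :
    cm ρ W D ≤ U ↔ ∀ g ∈ D, ∀ w ∈ W, ρ g w - w ∈ U := by
  constructor
  · intro h g hg w hw; exact h (mem_cm hg hw)
  · intro h
    rw [cm, Submodule.span_le]
    rintro _ ⟨g, hg, w, hw, rfl⟩
    exact h g hg w hw

lemma cm_mono {W W' : Submodule k V} {D D' : Subgroup G} (hW : W ≤ W') (hD : D ≤ D') :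
    cm ρ W D ≤ cm ρ W' D' := cm_le.2 fun _ hg _ hw => mem_cm (hD hg) (hW hw)

lemma cm_bot (D : Subgroup G) : cm ρ (⊥ : Submodule k V) D = ⊥ := by
  rw [eq_bot_iff, cm_le]
  intro g _ w hw
  rw [Submodule.mem_bot] at hw
  simp [hw]

lemma VC_mono {D : ℕ → Subgroup G} {W W' : Submodule k V} (hW : W ≤ W') (i : ℕ) :
    VC ρ D W i ≤ VC ρ D W' i := by
  induction i with
  | zero => exact hW
  | succ i ih => exact cm_mono ih le_rfl

lemma VC_mono_D {D D' : ℕ → Subgroup G} (hD : ∀ i, D i ≤ D' i) (W : Submodule k V) (i : ℕ) :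
    VC ρ D W i ≤ VC ρ D' W i := by
  induction i with
  | zero => exact le_rfl
  | succ i ih => exact cm_mono ih (hD i)

lemma VC_add (D : ℕ → Subgroup G) (W : Submodule k V) (i j : ℕ) :
    VC ρ D W (i + j) = VC ρ (fun t => D (i + t)) (VC ρ D W i) j := by
  induction j with
  | zero => rfl
  | succ j ih =>
    rw [← add_assoc]
    change cm ρ (VC ρ D W (i + j)) (D (i + j)) = _
    rw [ih]; rfl

lemma VC_eq_bot_of_le {D : ℕ → Subgroup G} {W : Submodule k V} {i j : ℕ} (hij : i ≤ j)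
    (h : VC ρ D W i = ⊥) : VC ρ D W j = ⊥ := by
  induction hij with
  | refl => exact h
  | step _ ih =>
    change cm ρ _ _ = ⊥
    rw [ih, cm_bot]

/-- `W` is invariant under `K` -/
def SInv (ρ : G →* Module.End k V) (K : Subgroup G) (W : Submodule k V) : Prop :=
  ∀ g ∈ K, ∀ w ∈ W, ρ g w ∈ W

lemma SInv.mono {K K' : Subgroup G} {W : Submodule k V} (h : SInv ρ K W) (hK : K' ≤ K) :
    SInv ρ K' W := fun g hg => h g (hK hg)

lemma SInv.top (K : Subgroup G) : SInv ρ K ⊤ := fun _ _ _ _ => trivial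

lemma SInv.cm {K D : Subgroup G} {W : Submodule k V} (hW : SInv ρ K W) (hD : Inv K D) :
    SInv ρ K (cm ρ W D) := by
  intro g hg w hw
  have h : PL.cm ρ W D ≤ (PL.cm ρ W D).comap (ρ g) := by
    rw [cm_le]
    intro d hd w hw
    rw [Submodule.mem_comap, map_sub]
    have h1 : ρ g (ρ d w) = ρ (g * d * g⁻¹) (ρ g w) := by
      rw [← rho_mul, ← rho_mul]; congr 2; group
    rw [h1]
    exact mem_cm (hD g hg d hd) (hW g hg w hw)
  exact h hw

lemma SInv.VC {K : Subgroup G} {D : ℕ → Subgroup G} {W : Submodule k V} (hW : SInv ρ K W)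
    (hD : ∀ i, Inv K (D i)) (i : ℕ) : SInv ρ K (VC ρ D W i) := by
  induction i with
  | zero => exact hW
  | succ i ih => exact ih.cm (hD i)

/-- `[W, D]` is invariant under `D`, for any `W` -/
lemma SInv.cm_self {D : Subgroup G} {W : Submodule k V} : SInv ρ D (PL.cm ρ W D) := by
  intro g hg w hw
  have h : PL.cm ρ W D ≤ (PL.cm ρ W D).comap (ρ g) := by
    rw [cm_le]
    intro d hd w hw
    rw [Submodule.mem_comap, map_sub]
    have h1 : ρ g (ρ d w) - ρ g w = (ρ (g * d) w - w) - (ρ g w - w) := by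
      rw [rho_mul]; abel
    rw [h1]
    exact sub_mem (mem_cm (D.mul_mem hg hd) hw) (mem_cm hg hw)
  exact h hw

lemma VC_le_of_inv {D : ℕ → Subgroup G} {W : Submodule k V} (hD : ∀ i, D i ≤ D 0)
    (hW : SInv ρ (D 0) W) (i : ℕ) : VC ρ D W i ≤ W := by
  induction i with
  | zero => exact le_rfl
  | succ i ih =>
    exact cm_le.2 fun g hg w hw => sub_mem (hW g (hD i hg) w (ih hw)) (ih hw)

/-- **Lemma 0**: `(D (i+1) - 1) W ≤ [W, D 0, …, D i]` -/
lemma lemma0 {D : ℕ → Subgroup G} {W : Submodule k V} (hD : ∀ i, D (i + 1) ≤ ⁅D i, D i⁆)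
    (hW : SInv ρ (D 0) W) (i : ℕ) : cm ρ W (D (i + 1)) ≤ VC ρ D W (i + 1) := by
  have hle : ∀ i, D (i + 1) ≤ D i := fun i => (hD i).trans (by
    rw [Subgroup.commutator_le]
    intro a ha b hb
    exact (D i).mul_mem ((D i).mul_mem ((D i).mul_mem ha hb) ((D i).inv_mem ha))
      ((D i).inv_mem hb))
  have hle0 : ∀ i, D i ≤ D 0 := fun i => by
    induction i with
    | zero => exact le_rfl
    | succ i ih => exact (hle i).trans ih
  induction i with
  | zero => exact cm_mono le_rfl (hle 0)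
  | succ i ih =>
    set T := VC ρ D W (i + 1 + 1) with hT
    set U := VC ρ D W (i + 1) with hU
    have hTU : T = cm ρ U (D (i + 1)) := rfl
    have hTinv : SInv ρ (D (i + 1)) T := by rw [hTU]; exact SInv.cm_self
    have hWinv : SInv ρ (D (i + 1)) W := hW.mono (hle0 _)
    let S : Subgroup G :=
      { carrier := {g | g ∈ D (i + 1) ∧ ∀ w ∈ W, ρ g w - w ∈ T}
        one_mem' := ⟨one_mem _, fun w _ => by simp⟩
        mul_mem' := by
          rintro a b ⟨ha, ha'⟩ ⟨hb, hb'⟩
          refine ⟨mul_mem ha hb, fun w hw => ?_⟩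
          have h1 : ρ (a * b) w - w = ρ a (ρ b w - w) + (ρ a w - w) := by
            rw [rho_mul, map_sub]; abel
          rw [h1]
          exact add_mem (hTinv a ha _ (hb' w hw)) (ha' w hw)
        inv_mem' := by
          rintro a ⟨ha, ha'⟩
          refine ⟨inv_mem ha, fun w hw => ?_⟩
          have h1 : ρ a⁻¹ w - w = -(ρ a⁻¹ (ρ a w - w)) := by
            rw [map_sub, rho_inv_apply]; abel
          rw [h1]
          exact neg_mem (hTinv a⁻¹ (inv_mem ha) _ (ha' w hw)) }
    have hS : ⁅D (i + 1), D (i + 1)⁆ ≤ S := by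
      rw [Subgroup.commutator_le]
      intro a ha b hb
      refine ⟨(D (i + 1)).mul_mem ((D (i + 1)).mul_mem ((D (i + 1)).mul_mem ha hb)
        ((D (i + 1)).inv_mem ha)) ((D (i + 1)).inv_mem hb), fun w hw => ?_⟩
      set w' := ρ a⁻¹ (ρ b⁻¹ w) with hw'
      have hw'W : w' ∈ W := hWinv _ (inv_mem ha) _ (hWinv _ (inv_mem hb) _ hw)
      have e1 : w = ρ b (ρ a w') := by rw [hw', rho_apply_inv, rho_apply_inv]
      have e2 : ρ ⁅a, b⁆ w = ρ a (ρ b w') := by
        rw [commutatorElement_def, rho_mul, rho_mul, rho_mul, hw']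
      have e3 : ρ ⁅a, b⁆ w - w =
          (ρ a (ρ b w' - w') - (ρ b w' - w')) - (ρ b (ρ a w' - w') - (ρ a w' - w')) := by
        have e4 : ρ ⁅a, b⁆ w - w = ρ a (ρ b w') - ρ b (ρ a w') := by
          rw [e2, ← e1]
        rw [e4, map_sub, map_sub]; abel
      rw [e3]
      exact sub_mem (mem_cm ha (ih (mem_cm hb hw'W))) (mem_cm hb (ih (mem_cm ha hw'W)))
    exact cm_le.2 fun g hg w hw => (hS (hD _ hg)).2 w hw

/-- quadratic action of the last term -/
lemma quadratic {D : ℕ → Subgroup G} {W : Submodule k V} (hD : ∀ i, D (i + 1) ≤ ⁅D i, D i⁆)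
    (hW : SInv ρ (D 0) W) {l : ℕ} (hl : l ≠ 0) (h : VC ρ D W (l + 1) = ⊥) {a b : G}
    (ha : a ∈ D l) (hb : b ∈ D l) {w : V} (hw : w ∈ W) :
    ρ a (ρ b w - w) - (ρ b w - w) = 0 := by
  obtain ⟨i, rfl⟩ := Nat.exists_eq_succ_of_ne_zero hl
  have h1 : ρ b w - w ∈ VC ρ D W (i + 1) := lemma0 hD hW i (mem_cm hb hw)
  have h2 : ρ a (ρ b w - w) - (ρ b w - w) ∈ VC ρ D W (i + 1 + 1) := mem_cm ha h1
  rw [show i.succ + 1 = i + 1 + 1 from rfl] at h
  rw [h] at h2
  exact h2

lemma quadratic_DS {L : Subgroup G} {l : ℕ} (hl : l ≠ 0) (h : VC ρ (DS L) ⊤ (l + 1) = ⊥)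
    {a b : G} (ha : a ∈ DS L l) (hb : b ∈ DS L l) : (ρ a - 1) * (ρ b - 1) = 0 := by
  ext w
  have := quadratic (ρ := ρ) (D := DS L) (W := ⊤) (fun i => le_rfl) (SInv.top _) hl h ha hb
    (w := w) trivial
  simpa [sub_eq_zero] using this

lemma commute_DS {L : Subgroup G} {l : ℕ} (hl : l ≠ 0) (h : VC ρ (DS L) ⊤ (l + 1) = ⊥)
    {a b : G} (ha : a ∈ DS L l) (hb : b ∈ DS L l) : ρ a * ρ b = ρ b * ρ a := by
  have h1 := quadratic_DS hl h ha hb
  have h2 := quadratic_DS hl h hb ha
  have h3 : (ρ a - 1) * (ρ b - 1) - (ρ b - 1) * (ρ a - 1) = ρ a * ρ b - ρ b * ρ a := by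
    noncomm_ring
  rw [h1, h2, sub_zero] at h3
  exact (sub_eq_zero.1 h3.symm)

/-- an operator with `(T-1)^2 = 0` has order dividing `p` -/
lemma pow_char {p : ℕ} [CharP k p] {T : Module.End k V} (h : (T - 1) * (T - 1) = 0) :
    T ^ p = 1 := by
  have key : ∀ j : ℕ, T ^ j = 1 + (j : k) • (T - 1) := by
    intro j
    induction j with
    | zero => simp
    | succ j ih =>
      rw [pow_succ, ih]
      have : (1 + (j : k) • (T - 1)) * T = 1 + (j : k) • (T - 1) + (T - 1) +
          (j : k) • ((T - 1) * (T - 1)) := by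
        have e : T = 1 + (T - 1) := by abel
        nth_rewrite 2 [e]
        rw [add_mul, mul_add, mul_add, mul_one, mul_one, one_mul, smul_mul_assoc]
        abel
      rw [this, h, smul_zero, add_zero]
      push_cast
      rw [add_smul, one_smul]; abel
  rw [key p, CharP.cast_eq_zero]; simp

lemma pow_DS {p : ℕ} [CharP k p] {L : Subgroup G} {l : ℕ} (hl : l ≠ 0)
    (h : VC ρ (DS L) ⊤ (l + 1) = ⊥) {a : G} (ha : a ∈ DS L l) : ρ (a ^ p) = 1 := by
  rw [map_pow]
  exact pow_char (quadratic_DS hl h ha ha)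

/-- elements acting trivially on `V` centralise a normal subgroup acting faithfully -/
lemma centralises {Q : Subgroup G} (hQ : Q.Normal) (hf : ∀ x ∈ Q, ρ x = 1 → x = 1) {g : G}
    (hg : ρ g = 1) {x : G} (hx : x ∈ Q) : g * x = x * g := by
  have h1 : g * x * g⁻¹ * x⁻¹ ∈ Q := Q.mul_mem (hQ.conj_mem x hx g) (Q.inv_mem hx)
  have h2 : ρ (g * x * g⁻¹ * x⁻¹) = 1 := by
    have hgi : ρ g⁻¹ = 1 := by
      have := map_mul ρ g g⁻¹
      rw [mul_inv_cancel, map_one, hg, one_mul] at this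
      exact this.symm
    rw [map_mul, map_mul, map_mul, hg, hgi, one_mul, mul_one, ← map_mul, mul_inv_cancel, map_one]
  have h3 := hf _ h1 h2
  have h4 : g * x * g⁻¹ * x⁻¹ * (x * g) = x * g := by rw [h3, one_mul]
  rw [← h4]; group

/-- product operator `(h (n-1) - 1) ⋯ (h 0 - 1)` -/
def prodOp (ρ : G →* Module.End k V) (h : ℕ → G) : ℕ → Module.End k V
  | 0 => 1
  | n + 1 => (ρ (h n) - 1) * prodOp ρ h n

lemma prodOp_mem {D : ℕ → Subgroup G} {W : Submodule k V} {h : ℕ → G} {n : ℕ}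
    (hh : ∀ i < n, h i ∈ D i) {w : V} (hw : w ∈ W) : prodOp ρ h n w ∈ VC ρ D W n := by
  induction n with
  | zero => exact hw
  | succ n ih =>
    have := ih (fun i hi => hh i (by omega))
    exact mem_cm (hh n (by omega)) this

lemma prodOp_congr {h h' : ℕ → G} {n : ℕ} (hh : ∀ i < n, h i = h' i) :
    prodOp ρ h n = prodOp ρ h' n := by
  induction n with
  | zero => rfl
  | succ n ih =>
    rw [prodOp, prodOp, ih (fun i hi => hh i (by omega)), hh n (by omega)]

lemma VC_eq_span {D : ℕ → Subgroup G} {W : Submodule k V} (n : ℕ) :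
    VC ρ D W n = Submodule.span k
      {v | ∃ h : ℕ → G, (∀ i < n, h i ∈ D i) ∧ ∃ w ∈ W, v = prodOp ρ h n w} := by
  apply le_antisymm
  · induction n with
    | zero =>
      intro w hw
      exact Submodule.subset_span ⟨fun _ => 1, fun i hi => by omega, w, hw, rfl⟩
    | succ n ih =>
      refine cm_le.2 fun g hg w hw => ?_
      have h1 := ih hw
      clear hw
      induction h1 using Submodule.span_induction with
      | mem x hx =>
        obtain ⟨h, hh, w, hw', rfl⟩ := hx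
        refine Submodule.subset_span ⟨fun i => if i = n then g else h i, fun i hi => ?_, w, hw', ?_⟩
        · dsimp only
          split_ifs with hin
          · rw [hin]; exact hg
          · exact hh i (by omega)
        · have e : prodOp ρ (fun i => if i = n then g else h i) n = prodOp ρ h n :=
            prodOp_congr (fun i hi => if_neg (by omega))
          rw [prodOp, if_pos rfl, e]
          rfl
      | zero => simp
      | add x y _ _ hx hy =>
        have e : ρ g (x + y) - (x + y) = (ρ g x - x) + (ρ g y - y) := by rw [map_add]; abel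
        rw [e]; exact add_mem hx hy
      | smul c x _ hx =>
        have e : ρ g (c • x) - c • x = c • (ρ g x - x) := by rw [map_smul, smul_sub]
        rw [e]; exact Submodule.smul_mem _ c hx
  · rw [Submodule.span_le]
    rintro _ ⟨h, hh, w, hw, rfl⟩
    exact prodOp_mem hh hw

lemma VC_top_eq_bot_iff {D : ℕ → Subgroup G} (n : ℕ) :
    VC ρ D ⊤ n = ⊥ ↔ ∀ h : ℕ → G, (∀ i < n, h i ∈ D i) → prodOp ρ h n = 0 := by
  constructor
  · intro hv h hh
    ext w
    have := prodOp_mem (ρ := ρ) hh (w := w) (W := ⊤) trivial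
    rw [hv] at this
    exact this
  · intro hv
    rw [VC_eq_span, Submodule.span_eq_bot]
    rintro _ ⟨h, hh, w, _, rfl⟩
    rw [hv h hh]; rfl

end modules

end Pool.Agent.TH62.PL
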