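import Pool.Agent.TH62.PL.Defs

set_option autoImplicit false

/-!
Statements, second part: the main induction.
-/

namespace Pool.Agent.TH62.PL

/-- the main theorem for modules, for groups of order at most `n` -/
def MTStm (π : Set ℕ) (n : ℕ) : Prop :=
  ∀ (p : ℕ) [Fact p.Prime] (k G V : Type) [Field k] [IsAlgClosed k] [CharP k p] [Group G]
    [Finite G] [AddCommGroup V] [Module k V] [FiniteDimensional k V]
    (ρ : G →* Module.End k V) (L : Subgroup G), p ∈ π → Nat.card G ≤ n → PSol π G →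
    IsHall π L → ∀ l : ℕ, VC ρ (DS L) ⊤ (l + 1) = ⊥ → FL π l ρ.ker

/-- the length of `G/C(Q)` for a normal `q`-subgroup acting faithfully, orders at most `n` -/
def MSStm (π : Set ℕ) (n : ℕ) : Prop :=
  ∀ (p q : ℕ) [Fact p.Prime] [Fact q.Prime] (k G V : Type) [Field k] [IsAlgClosed k] [CharP k p]
    [Group G] [Finite G] [AddCommGroup V] [Module k V] [FiniteDimensional k V]
    (ρ : G →* Module.End k V) (L : Subgroup G), p ∈ π → q ∉ π → Nat.card G ≤ n → PSol π G →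
    IsHall π L → ∀ l : ℕ, VC ρ (DS L) ⊤ (l + 1) = ⊥ →
    ∀ Q C : Subgroup G, Q.Normal → IsPGroup q Q → (∀ x ∈ Q, ρ x = 1 → x = 1) →
    (∀ g, g ∈ C ↔ ∀ x ∈ Q, g * x = x * g) → Len π l C

/-- length at most derived length, orders at most `n` -/
def TStm (π : Set ℕ) (n : ℕ) : Prop :=
  ∀ (G : Type) [Group G] [Finite G] (L N : Subgroup G), Nat.card G ≤ n → PSol π G →
    IsHall π L → N.Normal → ∀ d : ℕ, DS L d ≤ N → Len π d N

/-- chief factors as modules: if `G/C_G(P₁/P₂)` has order at most `n` -/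
def EStm (π : Set ℕ) (n : ℕ) : Prop :=
  ∀ (G : Type) [Group G] [Finite G] (L P₁ P₂ C : Subgroup G) (r : ℕ), PSol π G → IsHall π L →
    P₁.Normal → P₂.Normal → P₂ ≤ P₁ → r.Prime → r ∈ π → ⁅P₁, P₁⁆ ≤ P₂ → (∀ x ∈ P₁, x ^ r ∈ P₂) →
    (∀ g, g ∈ C ↔ ∀ x ∈ P₁, g * x * g⁻¹ * x⁻¹ ∈ P₂) → C.index ≤ n →
    ∀ m : ℕ, CE P₁ (DS L) (m + 1) ≤ P₂ → FL π m C

/-- the data of a section `P₁/P₂` (modulo `N`) of large commutator length, where `K ≥ L`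
normalises everything -/
structure PEData (π : Set ℕ) {G : Type} [Group G] (L N : Subgroup G) (m r : ℕ)
    (K P₁ P₂ : Subgroup G) : Prop where
  rp : r.Prime
  rπ : r ∈ π
  LK : L ≤ K
  NP : N ≤ P₂
  PP : P₂ ≤ P₁
  PK : P₁ ≤ K
  inv₁ : Inv K P₁
  inv₂ : Inv K P₂
  max : ∀ Y : Subgroup G, N ≤ Y → Y ≤ P₁ → Inv K Y → Y = P₁ ∨ Y ≤ P₂
  pf : PF {r} N P₁
  comm₁ : ⁅P₁, P₁⁆ ≤ P₂
  comm₂ : ⁅P₁, P₂⁆ ≤ N
  large : ¬ CE P₁ (DS L) m ≤ P₂

/-- existence of a large section, `|G/N| ≤ n` -/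
def PEStm (π : Set ℕ) (n : ℕ) : Prop :=
  ∀ (G : Type) [Group G] [Finite G] (L N : Subgroup G), PSol π G → IsHall π L → N.Normal →
    N.index ≤ n → ∀ m : ℕ, ¬ Len π (m + 1) N →
    ∃ (r : ℕ) (K P₁ P₂ : Subgroup G), PEData π L N (m + 1) r K P₁ P₂

/-- consequence of Lemma I for a weight space -/
def LemJStm : Prop :=
  ∀ (p : ℕ) [Fact p.Prime] (k G V Ω : Type) [Field k] [CharP k p] [Group G] [Finite G]
    [AddCommGroup V] [Module k V] [Fintype Ω] [MulAction G Ω]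
    (ρ : G →* Module.End k V) (e : Ω → Module.End k V), PS ρ e →
    ∀ L : Subgroup G, Group.IsSolvable L → ∀ l : ℕ, VC ρ (DS L) ⊤ (l + 1) = ⊥ →
    ∀ ω : Ω, e ω ≠ 0 → ∃ j ≤ l, (∀ g ∈ DS L j, g • ω = ω) ∧
      VC ρ (fun i => DS L (j + i)) (LinearMap.range (e ω)) (l + 1 - j) = ⊥

/-- abelian case -/
def AbStm : Prop :=
  ∀ (p : ℕ) [Fact p.Prime] (k G V : Type) [Field k] [IsAlgClosed k] [CharP k p] [Group G]
    [Finite G] [AddCommGroup V] [Module k V] (ρ : G →* Module.End k V) (L : Subgroup G),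
    Group.IsSolvable L → ∀ l : ℕ, VC ρ (DS L) ⊤ (l + 1) = ⊥ →
    ∀ R : Subgroup G, R.Normal → (∀ x ∈ R, ∀ y ∈ R, x * y = y * x) →
    ((Nat.card R : ℕ) : k) ≠ 0 → (∀ x ∈ R, ρ x = 1 → x = 1) →
    ∀ g ∈ DS L l, ∀ x ∈ R, g * x = x * g

/-- `Q` is a normal `q`-subgroup of class at most 2 with centre `Z`, `Q/Z` of exponent `q` -/
structure QD {G : Type} [Group G] (q : ℕ) (Q Z : Subgroup G) : Prop where
  Qn : Q.Normal
  Zn : Z.Normal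
  ZQ : Z ≤ Q
  pg : IsPGroup q Q
  cent : ∀ z ∈ Z, ∀ x ∈ Q, z * x = x * z
  comm : ∀ x ∈ Q, ∀ y ∈ Q, x * y * x⁻¹ * y⁻¹ ∈ Z
  pow : ∀ x ∈ Q, x ^ q ∈ Z
  full : ∀ x ∈ Q, (∀ y ∈ Q, x * y = y * x) → x ∈ Z

/-- weight data: a weight space of `Z` on which something fails -/
structure WD {k G V : Type} [Field k] [Group G] [AddCommGroup V] [Module k V] (q : ℕ)
    (ρ : G →* Module.End k V) (L Q Z : Subgroup G) (l j : ℕ) (e : Module.End k V)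
    (c : G → k) : Prop extends WC q ρ Q Z e c where
  idem : e * e = e
  jl : j ≤ l
  fix : ∀ g ∈ DS L j, ∀ z ∈ Z, c (g * z * g⁻¹) = c z
  comm' : ∀ g ∈ DS L j, ρ g * e = e * ρ g
  cent' : ∀ g, (∀ z ∈ Z, g * z = z * g) → ρ g * e = e * ρ g
  van : VC ρ (fun i => DS L (j + i)) (LinearMap.range e) (l + 1 - j) = ⊥

/-- existence of weight data detecting an element acting nontrivially on `Q/Z` -/
def WDStm : Prop :=
  ∀ (p q : ℕ) [Fact p.Prime] [Fact q.Prime] (k G V : Type) [Field k] [IsAlgClosed k] [CharP k p]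
    [Group G] [Finite G] [AddCommGroup V] [Module k V] (ρ : G →* Module.End k V)
    (L Q Z : Subgroup G) (l : ℕ), p ≠ q → Group.IsSolvable L → VC ρ (DS L) ⊤ (l + 1) = ⊥ →
    QD q Q Z → (∀ x ∈ Q, ρ x = 1 → x = 1) →
    ∀ x ∈ Q, x ∉ Z → ∃ (j : ℕ) (e : Module.End k V) (c : G → k), WD q ρ L Q Z l j e c ∧
      ∃ y ∈ Q, c (x * y * x⁻¹ * y⁻¹) ≠ 1

/-- the case `p` odd -/
def OddStm : Prop :=
  ∀ (p q : ℕ) [Fact p.Prime] [Fact q.Prime] (k G V : Type) [Field k] [IsAlgClosed k] [CharP k p]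
    [Group G] [Finite G] [AddCommGroup V] [Module k V] (ρ : G →* Module.End k V)
    (L Q Z : Subgroup G) (l : ℕ), p ≠ 2 → p ≠ q → Group.IsSolvable L →
    (∀ g ∈ L, (orderOf g).Coprime q) → VC ρ (DS L) ⊤ (l + 1) = ⊥ →
    QD q Q Z → (∀ x ∈ Q, ρ x = 1 → x = 1) →
    ∀ g ∈ DS L l, ∀ x ∈ Q, g * x * g⁻¹ * x⁻¹ ∈ Z

/-- the case `p = 2`: an elementary abelian section cannot be long -/
def ChainStm : Prop :=
  ∀ (q : ℕ) [Fact q.Prime] (k G V : Type) [Field k] [IsAlgClosed k] [CharP k 2]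
    [Group G] [Finite G] [AddCommGroup V] [Module k V] (ρ : G →* Module.End k V)
    (L Q Z P : Subgroup G) (l : ℕ), q ≠ 2 → Group.IsSolvable L →
    VC ρ (DS L) ⊤ (l + 1) = ⊥ → QD q Q Z → (∀ x ∈ Q, ρ x = 1 → x = 1) →
    P ≤ L → Inv L P → (∀ g ∈ P, ∀ z ∈ Z, g * z = z * g) →
    (∀ g ∈ P, ∀ x ∈ Q, g * g * x = x * (g * g)) →
    (∀ g ∈ P, ∀ g' ∈ P, ∀ x ∈ Q, (g * g') * x * (g * g')⁻¹ = (g' * g) * x * (g' * g)⁻¹) →
    ∀ g ∈ CE P (DS L) l, ∀ x ∈ Q, g * x * g⁻¹ * x⁻¹ ∈ Z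

/-- the case `p = 2` -/
def TwoStm : Prop :=
  ∀ (π : Set ℕ) (q : ℕ) [Fact q.Prime] (k G V : Type) [Field k] [IsAlgClosed k] [CharP k 2]
    [Group G] [Finite G] [AddCommGroup V] [Module k V] (ρ : G →* Module.End k V)
    (L Q Z N : Subgroup G) (l r : ℕ) (K P₁ P₂ : Subgroup G), 2 ∈ π → q ∉ π → IsHall π L →
    Group.IsSolvable L → VC ρ (DS L) ⊤ (l + 1 + 1) = ⊥ → QD q Q Z →
    (∀ x ∈ Q, ρ x = 1 → x = 1) → (∀ g, g ∈ N ↔ ∀ x ∈ Q, g * x * g⁻¹ * x⁻¹ ∈ Z) →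
    PEData π L N (l + 1) r K P₁ P₂ → False

end Pool.Agent.TH62.PL
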