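import Pool.Agent.TH62.PL.Asm
import Pool.Agent.TH84.J824
import Pool.Agent.TH31.J832

set_option autoImplicit false

/-! The main theorem. -/

namespace Pool.Agent.TH62.PL

theorem t_all_main (π : Set ℕ) (hπ : ∀ p ∈ π, p.Prime) (n : ℕ) : TStm π n :=
  t_all (fun π hπ n => TH84.J824.eStm π hπ n) (TH31.J832.twoStm ab wd sepF2 chain) π hπ n

end Pool.Agent.TH62.PL
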