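import Pool.Agent.TH62.PL.Final
import Pool.Agent.TH883.J725
import Pool.Agent.TH350.J726
import Pool.Agent.TH84.J727
import Pool.Agent.TH883.J728
import Pool.Agent.TH883.J729
import Pool.Agent.TH889.J730
import Pool.Agent.TH889.J731
import Pool.Agent.TH497.J732
import Pool.Agent.TH350.J733
import Pool.Agent.TH365.J735
import Pool.Agent.TH777.J736
import Pool.Agent.TH365.J737
import Pool.Agent.TH111.J825
import Pool.Agent.TH365.J826
import Pool.Agent.TH365.J827
import Pool.Agent.TH365.J828
import Pool.Agent.TH365.J829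
import Pool.Agent.TH365.J830
import Pool.Agent.TH553.J831
import Pool.Agent.TH111.J833

set_option autoImplicit false

/-! Assembly. -/

namespace Pool.Agent.TH62.PL

theorem lemI : LemIStm := TH350.J726.lemI TH883.J725.lemICore

theorem sepF2 : SepF2Stm := TH883.J729.sepF2 TH883.J728.lemW

theorem lemJ : LemJStm := TH365.J827.lemJ lemI

theorem ab : AbStm := TH365.J828.abStm lemI TH84.J727.charDec

theorem wd : WDStm := TH365.J829.wdStm lemJ TH84.J727.charDec

theorem odd : OddStm := TH365.J830.oddStm ab wd TH889.J730.f3Odd TH889.J731.f3Two TH497.J732.odd2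

theorem chain : ChainStm := TH553.J831.chainStm wd sepF2

theorem invSyl : InvSylStm := TH365.J735.invSyl TH350.J733.szConj

theorem frH : FrHStm := TH365.J735.frH TH350.J733.szConj

theorem t_all (hE : ∀ π : Set ℕ, (∀ p ∈ π, p.Prime) → ∀ n, MTStm π n → EStm π n)
    (two : TwoStm) (π : Set ℕ) (hπ : ∀ p ∈ π, p.Prime) (n : ℕ) : TStm π n :=
  (induction_all π hπ invSyl TH777.J736.hh (hE π hπ)
    (fun n => TH111.J825.peStm π hπ frH TH777.J736.hh TH365.J737.sel n)
    (fun n => TH365.J826.tStm π hπ n)
    (fun n hT hPE => TH111.J833.msStm π hπ TH365.J737.sel ab odd two n hT hPE) n).2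

end Pool.Agent.TH62.PL
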