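import Pool.Agent.TH62.PL.Defs

set_option autoImplicit false

/-! Basic closure properties. -/

namespace Pool.Agent.TH62.PL

open scoped commutatorElement

/-! ### σ-numbers -/

lemma PN.one (σ : Set ℕ) : PN σ 1 :=
  ⟨one_ne_zero, fun _ hp h => absurd (Nat.dvd_one.1 h) hp.one_lt.ne'⟩

lemma PN.mul {σ : Set ℕ} {m n : ℕ} (hm : PN σ m) (hn : PN σ n) : PN σ (m * n) :=
  ⟨mul_ne_zero hm.1 hn.1, fun p hp h => (hp.dvd_mul.1 h).elim (hm.2 p hp) (hn.2 p hp)⟩

lemma PN.of_dvd {σ : Set ℕ} {m n : ℕ} (hn : PN σ n) (h : m ∣ n) : PN σ m :=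
  ⟨fun h0 => hn.1 (by subst h0; exact Nat.eq_zero_of_zero_dvd h),
    fun p hp hd => hn.2 p hp (hd.trans h)⟩

lemma PN.mono {σ τ : Set ℕ} (h : σ ⊆ τ) {m : ℕ} (hm : PN σ m) : PN τ m :=
  ⟨hm.1, fun p hp hd => h (hm.2 p hp hd)⟩

lemma PN.pow {σ : Set ℕ} {m : ℕ} (hm : PN σ m) (k : ℕ) : PN σ (m ^ k) := by
  induction k with
  | zero => simpa using PN.one σ
  | succ k ih => rw [pow_succ]; exact ih.mul hm

lemma PN.coprime {σ : Set ℕ} {m n : ℕ} (hm : PN σ m) (hn : PN σᶜ n) : m.Coprime n := by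
  rw [Nat.coprime_iff_gcd_eq_one]
  by_contra hcon
  obtain ⟨p, hp, hd⟩ := Nat.exists_prime_and_dvd hcon
  exact hn.2 p hp (hd.trans (Nat.gcd_dvd_right _ _)) (hm.2 p hp (hd.trans (Nat.gcd_dvd_left _ _)))

lemma PN.coprime' {σ : Set ℕ} {m n : ℕ} (hm : PN σᶜ m) (hn : PN σ n) : m.Coprime n :=
  (hn.coprime hm).symm

lemma PN.eq_one {σ : Set ℕ} {m : ℕ} (hm : PN σ m) (hn : PN σᶜ m) : m = 1 := by
  have := hm.coprime hn
  rwa [Nat.coprime_self] at this

lemma PN.prime_pow {p : ℕ} (hp : p.Prime) (k : ℕ) : PN {p} (p ^ k) :=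
  ⟨pow_ne_zero _ hp.ne_zero, fun _ hq h => (Nat.prime_dvd_prime_iff_eq hq hp).1
    (hq.dvd_of_dvd_pow h)⟩

lemma PN.eq_prime_pow {p : ℕ} {m : ℕ} (h : PN {p} m) : ∃ k, m = p ^ k := by
  obtain ⟨h0, h1⟩ := h
  exact ⟨_, Nat.eq_prime_pow_of_unique_prime_dvd h0 (fun {d} hd hdm => h1 d hd hdm)⟩

lemma PN.prime {σ : Set ℕ} {p : ℕ} (hp : p.Prime) (h : p ∈ σ) : PN σ p :=
  ⟨hp.ne_zero, fun q hq hd => by rw [(Nat.prime_dvd_prime_iff_eq hq hp).1 hd]; exact h⟩

section groups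
variable {G : Type} [Group G] {σ π : Set ℕ}

/-! ### Inv -/

lemma Inv.inf {N S T : Subgroup G} (h1 : Inv N S) (h2 : Inv N T) : Inv N (S ⊓ T) :=
  fun g hg x hx => ⟨h1 g hg x hx.1, h2 g hg x hx.2⟩

lemma Inv.mono {N N' S : Subgroup G} (h : Inv N S) (hN : N' ≤ N) : Inv N' S :=
  fun g hg x hx => h g (hN hg) x hx

lemma Inv.self (N : Subgroup G) : Inv N N :=
  fun _ hg _ hx => N.mul_mem (N.mul_mem hg hx) (N.inv_mem hg)

lemma Inv.of_normal (N : Subgroup G) {S : Subgroup G} (h : S.Normal) : Inv N S :=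
  fun g _ x hx => h.conj_mem x hx g

lemma Inv.normal {S : Subgroup G} (h : Inv ⊤ S) : S.Normal :=
  ⟨fun x hx g => h g trivial x hx⟩

lemma Inv.bot (N : Subgroup G) : Inv N ⊥ := by
  intro g _ x hx
  rw [Subgroup.mem_bot] at hx ⊢
  subst hx; simp

lemma Inv.inv_conj {N S : Subgroup G} (h : Inv N S) {g : G} (hg : g ∈ N) {x : G} (hx : x ∈ S) :
    g⁻¹ * x * g ∈ S := by
  simpa using h g⁻¹ (N.inv_mem hg) x hx

lemma Inv.conj_iff {N S : Subgroup G} (h : Inv N S) {g : G} (hg : g ∈ N) (x : G) :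
    g * x * g⁻¹ ∈ S ↔ x ∈ S := by
  constructor
  · intro hx
    have := h g⁻¹ (N.inv_mem hg) _ hx
    simpa [mul_assoc] using this
  · exact h g hg x

lemma Inv.sup {N S T : Subgroup G} (h1 : Inv N S) (h2 : Inv N T) : Inv N (S ⊔ T) := by
  intro g hg x hx
  have h : S ⊔ T ≤ (S ⊔ T).comap (MulAut.conj g).toMonoidHom := by
    apply sup_le
    · intro y hy; exact (le_sup_left : S ≤ S ⊔ T) (h1 g hg y hy)
    · intro y hy; exact (le_sup_right : T ≤ S ⊔ T) (h2 g hg y hy)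
  exact h hx

lemma Inv.commutator {N S T : Subgroup G} (h1 : Inv N S) (h2 : Inv N T) : Inv N ⁅S, T⁆ := by
  intro g hg x hx
  have h : ⁅S, T⁆ ≤ (⁅S, T⁆).comap (MulAut.conj g).toMonoidHom := by
    rw [Subgroup.commutator_le]
    intro a ha b hb
    rw [Subgroup.mem_comap]
    have : (MulAut.conj g).toMonoidHom ⁅a, b⁆ = ⁅g * a * g⁻¹, g * b * g⁻¹⁆ := by
      simp only [MulEquiv.coe_toMonoidHom, MulAut.conj_apply, commutatorElement_def]
      group
    rw [this]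
    exact Subgroup.commutator_mem_commutator (h1 g hg a ha) (h2 g hg b hb)
  exact h hx

/-- elements of `S ⊔ T` when `S` normalises `T` -/
lemma mem_sup_inv {S T : Subgroup G} (h : Inv S T) {x : G} :
    x ∈ S ⊔ T ↔ ∃ s ∈ S, ∃ t ∈ T, x = s * t := by
  constructor
  · intro hx
    have : S ⊔ T ≤
      { carrier := {x | ∃ s ∈ S, ∃ t ∈ T, x = s * t}
        one_mem' := ⟨1, S.one_mem, 1, T.one_mem, by simp⟩
        mul_mem' := by
          rintro _ _ ⟨s, hs, t, ht, rfl⟩ ⟨s', hs', t', ht', rfl⟩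
          refine ⟨s * s', S.mul_mem hs hs', s'⁻¹ * t * s' * t', T.mul_mem ?_ ht', by group⟩
          have := h s'⁻¹ (S.inv_mem hs') t ht
          simpa using this
        inv_mem' := by
          rintro _ ⟨s, hs, t, ht, rfl⟩
          refine ⟨s⁻¹, S.inv_mem hs, s * t⁻¹ * s⁻¹, h s hs _ (T.inv_mem ht), by group⟩ :
          Subgroup G } := by
      apply sup_le
      · intro s hs; exact ⟨s, hs, 1, T.one_mem, by simp⟩
      · intro t ht; exact ⟨1, S.one_mem, t, ht, by simp⟩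
    exact this hx
  · rintro ⟨s, hs, t, ht, rfl⟩
    exact (S ⊔ T).mul_mem (Subgroup.mem_sup_left hs) (Subgroup.mem_sup_right ht)

/-- `(s t)^m ∈ s^m T` if `s` normalises `T` -/
lemma pow_mul_mem {T : Subgroup G} {s : G} (h' : ∀ x ∈ T, s⁻¹ * x * s ∈ T)
    {t : G} (ht : t ∈ T) (m : ℕ) :
    ∃ t' ∈ T, (s * t) ^ m = s ^ m * t' := by
  induction m with
  | zero => exact ⟨1, T.one_mem, by simp⟩
  | succ m ih =>
    obtain ⟨t', ht', he⟩ := ih
    refine ⟨s⁻¹ * t' * s * t, T.mul_mem (h' _ ht') ht, ?_⟩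
    rw [pow_succ, he]; group

/-! ### PF -/

lemma PF.mono {A A' B B' : Subgroup G} (h : PF σ A B) (hA : A ≤ A') (hB : B' ≤ B) :
    PF σ A' B' := by
  intro b hb
  obtain ⟨k, hk0, hk⟩ := h b (hB hb)
  exact ⟨k, hk0, hA hk⟩

lemma PF.set_mono {τ : Set ℕ} (hst : σ ⊆ τ) {A B : Subgroup G} (h : PF σ A B) : PF τ A B := by
  intro b hb
  obtain ⟨k, hk0, hk⟩ := h b hb
  exact ⟨k, hk0.mono hst, hk⟩

lemma PF.trans {A B C : Subgroup G} (h1 : PF σ A B) (h2 : PF σ B C) : PF σ A C := by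
  intro c hc
  obtain ⟨k, hk0, hk⟩ := h2 c hc
  obtain ⟨l, hl0, hl⟩ := h1 _ hk
  exact ⟨k * l, hk0.mul hl0, by rwa [pow_mul]⟩

lemma PF.inf {A B A' B' : Subgroup G} (h1 : PF σ A B) (h2 : PF σ A' B') :
    PF σ (A ⊓ A') (B ⊓ B') := by
  intro b hb
  obtain ⟨k, hk0, hk⟩ := h1 b hb.1
  obtain ⟨l, hl0, hl⟩ := h2 b hb.2
  refine ⟨k * l, hk0.mul hl0, ?_, ?_⟩
  · rw [pow_mul]; exact A.pow_mem hk _
  · rw [mul_comm, pow_mul]; exact A'.pow_mem hl _

lemma PF.of_le {A B : Subgroup G} (h : B ≤ A) : PF σ A B :=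
  fun b hb => ⟨1, PN.one σ, by simpa using h hb⟩

lemma PF.refl (A : Subgroup G) : PF σ A A := PF.of_le le_rfl

lemma PF.sup {N A B T : Subgroup G} (h : PF σ A B) (hB : B ≤ N) (hT : Inv N T) :
    PF σ (A ⊔ T) (B ⊔ T) := by
  intro x hx
  obtain ⟨s, hs, t, ht, rfl⟩ := (mem_sup_inv (hT.mono hB)).1 hx
  obtain ⟨k, hk0, hk⟩ := h s hs
  obtain ⟨t', ht', he⟩ := pow_mul_mem (fun x hx => hT.inv_conj (hB hs) hx) ht k
  exact ⟨k, hk0, he ▸ (A ⊔ T).mul_mem (Subgroup.mem_sup_left hk) (Subgroup.mem_sup_right ht')⟩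

lemma PF.supN {A B T : Subgroup G} (h : PF σ A B) (hT : T.Normal) : PF σ (A ⊔ T) (B ⊔ T) :=
  h.sup le_rfl (Inv.of_normal _ hT)

lemma PF.map {H : Type} [Group H] (f : G →* H) {A B : Subgroup G} (h : PF σ A B) :
    PF σ (A.map f) (B.map f) := by
  rintro _ ⟨x, hx, rfl⟩
  obtain ⟨m, hm, hm'⟩ := h x hx
  exact ⟨m, hm, x ^ m, hm', by simp⟩

lemma PF.comap {H : Type} [Group H] (f : G →* H) {A B : Subgroup H} (h : PF σ A B) :
    PF σ (A.comap f) (B.comap f) := by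
  intro x hx
  obtain ⟨m, hm, hm'⟩ := h (f x) hx
  exact ⟨m, hm, by simpa using hm'⟩

lemma PF.le_of_compl {A B : Subgroup G} (h1 : PF σ A B) (h2 : PF σᶜ A B) : B ≤ A := by
  intro b hb
  obtain ⟨m, hm, hm'⟩ := h1 b hb
  obtain ⟨n, hn, hn'⟩ := h2 b hb
  have hc := hm.coprime hn
  have h3 : b ^ (1 : ℤ) ∈ A := by
    have h4 : (1 : ℤ) = m * Nat.gcdA m n + n * Nat.gcdB m n := by
      rw [← Nat.gcd_eq_gcd_ab, hc]; rfl
    rw [h4, zpow_add, zpow_mul, zpow_mul, zpow_natCast, zpow_natCast]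
    exact A.mul_mem (A.zpow_mem hm' _) (A.zpow_mem hn' _)
  simpa using h3

/-! ### orders -/

lemma PN.orderOf_of_pow {x : G} {m : ℕ} (hm : PN σ m) (h : x ^ m = 1) : PN σ (orderOf x) :=
  hm.of_dvd (orderOf_dvd_of_pow_eq_one h)

lemma PF.orderOf {A : Subgroup G} (h : PF σ ⊥ A) {x : G} (hx : x ∈ A) : PN σ (orderOf x) := by
  obtain ⟨m, hm, hm'⟩ := h x hx
  exact hm.orderOf_of_pow (Subgroup.mem_bot.1 hm')

lemma PF.bot_iff [Finite G] {A : Subgroup G} : PF σ ⊥ A ↔ PN σ (Nat.card A) := by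
  constructor
  · intro h
    refine ⟨Nat.card_pos.ne', fun p hp hd => ?_⟩
    have := Fact.mk hp
    obtain ⟨x, hx⟩ := exists_prime_orderOf_dvd_card' p hd
    have h1 := h.orderOf x.2
    rw [Subgroup.orderOf_coe, hx] at h1
    exact h1.2 p hp dvd_rfl
  · intro h x hx
    refine ⟨Nat.card A, h, ?_⟩
    have : (⟨x, hx⟩ : A) ^ Nat.card A = 1 := pow_card_eq_one'
    have h9 : ((⟨x, hx⟩ : A) ^ Nat.card A : A).1 = (1 : A).1 := by rw [this]
    rw [Subgroup.mem_bot]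
    simpa only [Subgroup.coe_pow, Subgroup.coe_one] using h9

/-- `PF` for a normal subgroup is a statement about the index -/
lemma PF.iff_relIndex [Finite G] {A B : Subgroup G} (hA : Inv B A) :
    PF σ A B ↔ PN σ (A.relIndex B) := by
  have hn : (A.subgroupOf B).Normal := ⟨fun x hx g => by
    rw [Subgroup.mem_subgroupOf] at hx ⊢
    exact hA g g.2 x hx⟩
  constructor
  · intro h
    have h0 : A.relIndex B = Nat.card (B ⧸ A.subgroupOf B) := rfl
    rw [h0]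
    refine ⟨Nat.card_pos.ne', fun p hp hd => ?_⟩
    have := Fact.mk hp
    obtain ⟨x, hx⟩ := exists_prime_orderOf_dvd_card' p hd
    induction x using QuotientGroup.induction_on with
    | H x =>
      obtain ⟨m, hm, hm'⟩ := h x x.2
      have h3 : _root_.orderOf (QuotientGroup.mk x : B ⧸ A.subgroupOf B) ∣ m := by
        apply orderOf_dvd_of_pow_eq_one
        rw [← QuotientGroup.mk_pow, QuotientGroup.eq_one_iff, Subgroup.mem_subgroupOf]
        simpa using hm'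
      rw [hx] at h3
      exact hm.2 p hp h3
  · intro h x hx
    refine ⟨A.relIndex B, h, ?_⟩
    have h0 := (A.subgroupOf B).pow_index_mem ⟨x, hx⟩
    rw [Subgroup.mem_subgroupOf] at h0
    exact h0

/-! ### Len -/

lemma Len.succ {n : ℕ} : ∀ {N : Subgroup G}, Len π n N → Len π (n + 1) N := by
  induction n with
  | zero =>
    intro N h
    exact ⟨⊤, ⊤, inferInstance, inferInstance, le_top, le_rfl, h, PF.refl _, PF.refl _⟩
  | succ n ih =>
    rintro N ⟨A, B, hA, hB, hNA, hAB, h1, h2, h3⟩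
    exact ⟨A, B, hA, hB, hNA, hAB, h1, h2, ih h3⟩

lemma Len.mono_n {n m : ℕ} {N : Subgroup G} (h : Len π n N) (hnm : n ≤ m) : Len π m N := by
  induction hnm with
  | refl => exact h
  | step _ ih => exact ih.succ

lemma Len.mono {n : ℕ} : ∀ {N N' : Subgroup G}, N'.Normal → N ≤ N' → Len π n N → Len π n N' := by
  induction n with
  | zero => intro N N' _ hle h; exact PF.mono h hle le_rfl
  | succ n ih =>
    rintro N N' hN' hle ⟨A, B, hA, hB, hNA, hAB, h1, h2, h3⟩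
    refine ⟨A ⊔ N', B ⊔ N', Subgroup.sup_normal A N', Subgroup.sup_normal B N', le_sup_right,
      sup_le_sup_right hAB _, ?_, h2.supN hN', ih (Subgroup.sup_normal B N') le_sup_left h3⟩
    have h4 := h1.supN hN'
    rwa [sup_eq_right.2 hle] at h4

lemma Len.inf {n : ℕ} : ∀ {N N' : Subgroup G}, Len π n N → Len π n N' → Len π n (N ⊓ N') := by
  induction n with
  | zero =>
    intro N N' h h'
    have := PF.inf h h'
    rwa [inf_idem] at this
  | succ n ih =>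
    rintro N N' ⟨A, B, hA, hB, hNA, hAB, h1, h2, h3⟩ ⟨A', B', hA', hB', hNA', hAB', h1', h2', h3'⟩
    exact ⟨A ⊓ A', B ⊓ B', Subgroup.normal_inf_normal A A', Subgroup.normal_inf_normal B B',
      inf_le_inf hNA hNA', inf_le_inf hAB hAB', h1.inf h1', h2.inf h2', ih h3 h3'⟩

lemma Len.comap {H : Type} [Group H] (f : G →* H) {n : ℕ} :
    ∀ {N : Subgroup H}, Len π n N → Len π n (N.comap f) := by
  induction n with
  | zero => intro N h; exact PF.comap f h
  | succ n ih =>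
    rintro N ⟨A, B, hA, hB, hNA, hAB, h1, h2, h3⟩
    exact ⟨A.comap f, B.comap f, hA.comap f, hB.comap f, Subgroup.comap_mono hNA,
      Subgroup.comap_mono hAB, h1.comap f, h2.comap f, ih h3⟩

lemma Len.map {H : Type} [Group H] (f : G →* H) (hf : Function.Surjective f) {n : ℕ} :
    ∀ {N : Subgroup G}, Len π n N → Len π n (N.map f) := by
  induction n with
  | zero =>
    intro N h
    have := PF.map f h
    rwa [← MonoidHom.range_eq_map, MonoidHom.range_eq_top.2 hf] at this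
  | succ n ih =>
    rintro N ⟨A, B, hA, hB, hNA, hAB, h1, h2, h3⟩
    exact ⟨A.map f, B.map f, hA.map f hf, hB.map f hf, Subgroup.map_mono hNA,
      Subgroup.map_mono hAB, h1.map f, h2.map f, ih h3⟩

/-- absorbing a `π'`-factor at the bottom -/
lemma Len.absorb {n : ℕ} {N N' : Subgroup G} (hle : N' ≤ N) (h : PF πᶜ N' N) (hN : Len π n N) :
    Len π n N' := by
  cases n with
  | zero => exact h.trans hN
  | succ n =>
    obtain ⟨A, B, hA, hB, hNA, hAB, h1, h2, h3⟩ := hN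
    exact ⟨A, B, hA, hB, hle.trans hNA, hAB, h.trans h1, h2, h3⟩

lemma Len.top (n : ℕ) : Len π n (⊤ : Subgroup G) :=
  Len.mono_n (n := 0) (PF.refl ⊤) (Nat.zero_le n)

/-- absorbing a `π`-factor at the bottom -/
lemma Len.step {n : ℕ} {N Z : Subgroup G} (hN : N.Normal) (hZ : Z.Normal) (hle : N ≤ Z)
    (h : PF π N Z) (hL : Len π n Z) : Len π (n + 1) N :=
  ⟨N, Z, hN, hZ, le_rfl, hle, PF.refl _, h, hL⟩

/-! ### FL -/

lemma FL.toLen {n : ℕ} {N : Subgroup G} (hN : N.Normal) (h : FL π n N) : Len π (n + 1) N := by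
  obtain ⟨Z, hZ, hle, h1, h2⟩ := h
  exact Len.step hN hZ hle h1 h2

lemma Len.toFL {n : ℕ} {N : Subgroup G} (hN : N.Normal) (h : Len π n N) : FL π n N :=
  ⟨N, hN, le_rfl, PF.refl _, h⟩

lemma FL.top (n : ℕ) : FL π n (⊤ : Subgroup G) := (Len.top n).toFL inferInstance

lemma FL.mono {n : ℕ} {N N' : Subgroup G} (hN' : N'.Normal) (hle : N ≤ N') (h : FL π n N) :
    FL π n N' := by
  obtain ⟨Z, hZ, h0, h1, h2⟩ := h
  refine ⟨Z ⊔ N', Subgroup.sup_normal Z N', le_sup_right, ?_, h2.mono (Subgroup.sup_normal Z N')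
    le_sup_left⟩
  have h4 := h1.supN hN'
  rwa [sup_eq_right.2 hle] at h4

lemma FL.inf {n : ℕ} {N N' : Subgroup G} (h : FL π n N) (h' : FL π n N') : FL π n (N ⊓ N') := by
  obtain ⟨Z, hZ, h0, h1, h2⟩ := h
  obtain ⟨Z', hZ', h0', h1', h2'⟩ := h'
  exact ⟨Z ⊓ Z', Subgroup.normal_inf_normal Z Z', inf_le_inf h0 h0', h1.inf h1', h2.inf h2'⟩

lemma FL.comap {H : Type} [Group H] (f : G →* H) {n : ℕ} {N : Subgroup H} (h : FL π n N) :
    FL π n (N.comap f) := by
  obtain ⟨Z, hZ, h0, h1, h2⟩ := h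
  exact ⟨Z.comap f, hZ.comap f, Subgroup.comap_mono h0, h1.comap f, h2.comap f⟩

lemma FL.map {H : Type} [Group H] (f : G →* H) (hf : Function.Surjective f) {n : ℕ}
    {N : Subgroup G} (h : FL π n N) : FL π n (N.map f) := by
  obtain ⟨Z, hZ, h0, h1, h2⟩ := h
  exact ⟨Z.map f, hZ.map f hf, Subgroup.map_mono h0, h1.map f, h2.map f hf⟩

/-- absorbing a `π`-factor at the bottom -/
lemma FL.absorb {n : ℕ} {N N' : Subgroup G} (hle : N' ≤ N) (h : PF π N' N) (hN : FL π n N) :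
    FL π n N' := by
  obtain ⟨Z, hZ, h0, h1, h2⟩ := hN
  exact ⟨Z, hZ, hle.trans h0, h.trans h1, h2⟩

/-! ### PSol -/

lemma PSol.comap {H : Type} [Group H] (f : H →* G) (hf : Function.Injective f) (h : PSol π G) :
    PSol π H := by
  obtain ⟨m, S, h0, h1, h2, h3, h4⟩ := h
  refine ⟨m, fun i => (S i).comap f, ?_, ?_, fun i => Subgroup.comap_mono (h2 i),
    fun i => (h3 i).comap f, fun i hi => ?_⟩
  · simp only [h0, MonoidHom.comap_bot]
    exact (MonoidHom.ker_eq_bot_iff f).2 hf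
  · simp only [h1, Subgroup.comap_top]
  · rcases h4 i hi with h | ⟨q, hq, h⟩
    · exact Or.inl (h.comap f)
    · exact Or.inr ⟨q, hq, h.comap f⟩

lemma PSol.map {H : Type} [Group H] (f : G →* H) (hf : Function.Surjective f) (h : PSol π G) :
    PSol π H := by
  obtain ⟨m, S, h0, h1, h2, h3, h4⟩ := h
  refine ⟨m, fun i => (S i).map f, ?_, ?_, fun i => Subgroup.map_mono (h2 i),
    fun i => (h3 i).map f hf, fun i hi => ?_⟩
  · simp only [h0, Subgroup.map_bot]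
  · simp only [h1]
    rw [← MonoidHom.range_eq_map, MonoidHom.range_eq_top.2 hf]
  · rcases h4 i hi with h | ⟨q, hq, h⟩
    · exact Or.inl (h.map f)
    · exact Or.inr ⟨q, hq, h.map f⟩

lemma PSol.subgroup (h : PSol π G) (K : Subgroup G) : PSol π K :=
  h.comap K.subtype K.subtype_injective

lemma PSol.quotient (h : PSol π G) (N : Subgroup G) [N.Normal] : PSol π (G ⧸ N) :=
  h.map (QuotientGroup.mk' N) (QuotientGroup.mk'_surjective N)

/-! ### DS -/

lemma DS.inv (L : Subgroup G) (i : ℕ) : Inv L (DS L i) := by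
  induction i with
  | zero => exact Inv.self L
  | succ i ih => exact ih.commutator ih

lemma DS.succ_le (L : Subgroup G) (i : ℕ) : DS L (i + 1) ≤ DS L i := by
  rw [show DS L (i + 1) = ⁅DS L i, DS L i⁆ from rfl, Subgroup.commutator_le]
  intro a ha b hb
  exact (DS L i).mul_mem ((DS L i).mul_mem ((DS L i).mul_mem ha hb) ((DS L i).inv_mem ha))
    ((DS L i).inv_mem hb)

lemma DS.anti (L : Subgroup G) {i j : ℕ} (h : i ≤ j) : DS L j ≤ DS L i := by
  induction h with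
  | refl => exact le_rfl
  | step _ ih => exact (DS.succ_le L _).trans ih

lemma DS.le (L : Subgroup G) (i : ℕ) : DS L i ≤ L := DS.anti L (Nat.zero_le i)

lemma DS.mono {L L' : Subgroup G} (h : L ≤ L') (i : ℕ) : DS L i ≤ DS L' i := by
  induction i with
  | zero => exact h
  | succ i ih => exact Subgroup.commutator_mono ih ih

lemma DS.map {H : Type} [Group H] (f : G →* H) (L : Subgroup G) (i : ℕ) :
    (DS L i).map f = DS (L.map f) i := by
  induction i with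
  | zero => rfl
  | succ i ih =>
    rw [show DS L (i + 1) = ⁅DS L i, DS L i⁆ from rfl, Subgroup.map_commutator, ih]; rfl

lemma DS.subgroupOf {L K : Subgroup G} (h : L ≤ K) (i : ℕ) :
    DS (L.subgroupOf K) i = (DS L i).subgroupOf K := by
  apply Subgroup.map_injective K.subtype_injective
  rw [DS.map, Subgroup.map_subgroupOf_eq_of_le h,
    Subgroup.map_subgroupOf_eq_of_le ((DS.le L i).trans h)]

/-- relation with the derived series of Mathlib -/
lemma DS.eq_map_derivedSeries (L : Subgroup G) (i : ℕ) :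
    DS L i = (derivedSeries L i).map L.subtype := by
  induction i with
  | zero =>
    rw [derivedSeries_zero, ← MonoidHom.range_eq_map, Subgroup.range_subtype]; rfl
  | succ i ih =>
    rw [derivedSeries_succ, Subgroup.map_commutator, ← ih]; rfl

end groups

end Pool.Agent.TH62.PL
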