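import Mathlib

set_option autoImplicit false

/-!
Definitions for the proof that the pi-length of a finite pi-soluble group is at most the derived
length of a Hall pi-subgroup.
-/

namespace Pool.Agent.TH62.PL

/-- `m` is a positive integer all of whose prime divisors lie in `σ` -/
def PN (σ : Set ℕ) (m : ℕ) : Prop := m ≠ 0 ∧ ∀ p : ℕ, p.Prime → p ∣ m → p ∈ σ

section groups
variable {G : Type} [Group G]

/-- `B/A` is a `σ`-group, elementwise -/
def PF (σ : Set ℕ) (A B : Subgroup G) : Prop := ∀ b ∈ B, ∃ m, PN σ m ∧ b ^ m ∈ A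

/-- `G/N` has `π`-length at most `n` -/
def Len (π : Set ℕ) : ℕ → Subgroup G → Prop
  | 0, N => PF πᶜ N ⊤
  | n + 1, N => ∃ A B : Subgroup G, A.Normal ∧ B.Normal ∧ N ≤ A ∧ A ≤ B ∧
      PF πᶜ N A ∧ PF π A B ∧ Len π n B

/-- `G/N` is an extension of a `π`-group by a group of `π`-length at most `n` -/
def FL (π : Set ℕ) (n : ℕ) (N : Subgroup G) : Prop :=
  ∃ Z : Subgroup G, Z.Normal ∧ N ≤ Z ∧ PF π N Z ∧ Len π n Z

/-- `K` normalises `Y` -/
def Inv (K Y : Subgroup G) : Prop := ∀ g ∈ K, ∀ x ∈ Y, g * x * g⁻¹ ∈ Y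

/-- `L` is a Hall `π`-subgroup -/
def IsHall (π : Set ℕ) (L : Subgroup G) : Prop := PF π ⊥ L ∧ PN πᶜ L.index

/-- derived series of a subgroup, as subgroups of `G` -/
def DS (L : Subgroup G) : ℕ → Subgroup G
  | 0 => L
  | i + 1 => ⁅DS L i, DS L i⁆

/-- the iterated commutator `[P, D 0, …, D (i-1)]` -/
def CE (P : Subgroup G) (D : ℕ → Subgroup G) : ℕ → Subgroup G
  | 0 => P
  | i + 1 => ⁅CE P D i, D i⁆

end groups

/-- `G` is `π`-soluble -/
def PSol (π : Set ℕ) (G : Type) [Group G] : Prop :=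
  ∃ (m : ℕ) (S : ℕ → Subgroup G), S 0 = ⊥ ∧ S m = ⊤ ∧ (∀ i, S i ≤ S (i + 1)) ∧
    (∀ i, (S i).Normal) ∧
    ∀ i < m, PF πᶜ (S i) (S (i + 1)) ∨ ∃ q ∈ π, PF {q} (S i) (S (i + 1))

section modules
variable {G k V : Type} [Group G] [Field k] [AddCommGroup V] [Module k V]

/-- `[W, D]`, the span of all `g w - w` with `g ∈ D`, `w ∈ W` -/
def cm (ρ : G →* Module.End k V) (W : Submodule k V) (D : Subgroup G) : Submodule k V :=
  Submodule.span k {v | ∃ g ∈ D, ∃ w ∈ W, v = ρ g w - w}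

/-- the iterated commutator `[W, D 0, …, D (i-1)]` -/
def VC (ρ : G →* Module.End k V) (D : ℕ → Subgroup G) (W : Submodule k V) : ℕ → Submodule k V
  | 0 => W
  | i + 1 => cm ρ (VC ρ D W i) (D i)

/-- a system of imprimitivity given by orthogonal idempotents -/
structure PS {Ω : Type} [Fintype Ω] [MulAction G Ω] (ρ : G →* Module.End k V)
    (e : Ω → Module.End k V) : Prop where
  idem : ∀ ω, e ω * e ω = e ω
  orth : ∀ ω ω', ω ≠ ω' → e ω * e ω' = 0
  sum : ∑ ω, e ω = 1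
  equi : ∀ g ω, ρ g * e ω = e (g • ω) * ρ g

/-- context: a normal `q`-subgroup `Q` of class at most two with centre `Z ≥ [Q,Q]`, `Q/Z` of
exponent dividing `q`, and a linear character `c` of `Z` (a function on `G`, only relevant on `Z`) -/
structure QC (q : ℕ) (Q Z : Subgroup G) (c : G → k) : Prop where
  Qn : Q.Normal
  Zn : Z.Normal
  ZQ : Z ≤ Q
  pg : IsPGroup q Q
  cent : ∀ z ∈ Z, ∀ x ∈ Q, z * x = x * z
  comm : ∀ x ∈ Q, ∀ y ∈ Q, x * y * x⁻¹ * y⁻¹ ∈ Z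
  pow : ∀ x ∈ Q, x ^ q ∈ Z
  cmul : ∀ z ∈ Z, ∀ z' ∈ Z, c (z * z') = c z * c z'
  cne : ∀ z ∈ Z, c z ≠ 0

/-- `e` is a nonzero operator whose image is a `Q`-submodule on which `Z` acts through `c` -/
structure WC (q : ℕ) (ρ : G →* Module.End k V) (Q Z : Subgroup G) (e : Module.End k V)
    (c : G → k) : Prop extends QC q Q Z c where
  ne : e ≠ 0
  commQ : ∀ x ∈ Q, ρ x * e = e * ρ x
  sc : ∀ z ∈ Z, ρ z * e = c z • e

/-- `g` acts trivially on `Q` modulo the radical of the pairing `(x,y) ↦ c [x,y]` -/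
def TrivOn (Q : Subgroup G) (c : G → k) (g : G) : Prop :=
  ∀ x ∈ Q, ∀ y ∈ Q, c ((g * x * g⁻¹ * x⁻¹) * y * (g * x * g⁻¹ * x⁻¹)⁻¹ * y⁻¹) = 1

end modules

end Pool.Agent.TH62.PL
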