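import Pool.Agent.TH62.PL.MTc

set_option autoImplicit false

/-! Conversion to the frozen statement. -/

namespace Pool.Agent.TH62.PL

section
variable {G : Type} [Group G] {π : Set ℕ}

lemma Len.chain {d : ℕ} : ∀ {N : Subgroup G}, N.Normal → Len π d N →
    ∃ T : ℕ → Subgroup G, T 0 = N ∧ T (2 * d + 1) = ⊤ ∧ (∀ i, T i ≤ T (i + 1)) ∧
      (∀ i, (T i).Normal) ∧ (∀ i ≤ d, PF πᶜ (T (2 * i)) (T (2 * i + 1))) ∧
      (∀ i < d, PF π (T (2 * i + 1)) (T (2 * i + 2))) := by
  induction d with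
  | zero =>
    intro N hN h
    refine ⟨fun i => if i = 0 then N else ⊤, by simp, by simp, fun i => ?_, fun i => ?_,
      fun i hi => ?_, fun i hi => by omega⟩
    · dsimp only
      rw [if_neg (Nat.succ_ne_zero i)]; exact le_top
    · dsimp only
      split_ifs
      · exact hN
      · infer_instance
    · have : i = 0 := by omega
      subst this
      exact h
  | succ d ih =>
    rintro N hN ⟨A, B, hA, hB, hNA, hAB, h1, h2, h3⟩
    obtain ⟨T, t0, t1, t2, t3, t4, t5⟩ := ih hB h3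
    refine ⟨fun i => if i = 0 then N else if i = 1 then A else T (i - 2), by simp, ?_, ?_, ?_, ?_,
      ?_⟩
    · dsimp only
      rw [if_neg (by omega), if_neg (by omega), ← t1]
      congr 1
    · intro i
      dsimp only
      rcases i with _ | _ | i
      · simpa using hNA
      · simpa [t0] using hAB
      · simpa using t2 i
    · intro i
      dsimp only
      split_ifs
      · exact hN
      · exact hA
      · exact t3 _
    · intro i hi
      dsimp only
      rcases i with _ | i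
      · simpa using h1
      · have e1 : 2 * (i + 1) - 2 = 2 * i := by omega
        have e2 : 2 * (i + 1) + 1 - 2 = 2 * i + 1 := by omega
        rw [if_neg (by omega), if_neg (by omega), if_neg (by omega), if_neg (by omega), e1, e2]
        exact t4 i (by omega)
    · intro i hi
      dsimp only
      rcases i with _ | i
      · simpa [t0] using h2
      · have e1 : 2 * (i + 1) + 1 - 2 = 2 * i + 1 := by omega
        have e2 : 2 * (i + 1) + 2 - 2 = 2 * i + 2 := by omega
        rw [if_neg (by omega), if_neg (by omega), if_neg (by omega), if_neg (by omega), e1, e2]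
        exact t5 i (by omega)

lemma ratio_eq [Finite G] {A B : Subgroup G} (h : A ≤ B) :
    Nat.card B / Nat.card A = A.relIndex B := by
  have e : Nat.card B = Nat.card A * A.relIndex B := by
    rw [← Subgroup.relIndex_bot_left, ← Subgroup.relIndex_bot_left A,
      Subgroup.relIndex_mul_relIndex _ _ _ bot_le h]
  rw [e]
  exact Nat.mul_div_cancel_left _ Nat.card_pos

lemma relIndex_ne_zero [Finite G] (A B : Subgroup G) : A.relIndex B ≠ 0 := by
  have h : A.relIndex B = Nat.card (B ⧸ A.subgroupOf B) := rfl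
  rw [h]; exact Nat.card_pos.ne'

end

theorem final_of (hT : ∀ π : Set ℕ, (∀ p ∈ π, p.Prime) → ∀ n, TStm π n) :
    ∀ (π : Set ℕ), π.Nonempty → (∀ p ∈ π, p.Prime) →
    ∀ (G : Type) [Group G] [Finite G],
      (∃ m : ℕ, ∃ S : ℕ → Subgroup G, S 0 = ⊥ ∧ S m = ⊤ ∧ (∀ i, S i ≤ S (i + 1)) ∧
        (∀ i, (S i).Normal) ∧
        ∀ i < m,
          (∀ p : ℕ, p.Prime → p ∣ Nat.card ↥(S (i + 1)) / Nat.card ↥(S i) → p ∉ π) ∨
          (∃ q ∈ π, ∀ p : ℕ, p.Prime →
            p ∣ Nat.card ↥(S (i + 1)) / Nat.card ↥(S i) → p = q)) →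
      ∀ H : Subgroup G,
        (∀ p : ℕ, p.Prime → p ∣ Nat.card ↥H → p ∈ π) →
        (∀ p : ℕ, p.Prime → p ∣ H.index → p ∉ π) →
        ∀ d : ℕ, derivedSeries (↥H) d = ⊥ →
          ∃ T : ℕ → Subgroup G, T 0 = ⊥ ∧ T (2 * d + 1) = ⊤ ∧
            (∀ i, T i ≤ T (i + 1)) ∧ (∀ i, (T i).Normal) ∧
            (∀ i ≤ d, ∀ p : ℕ, p.Prime →
              p ∣ Nat.card ↥(T (2 * i + 1)) / Nat.card ↥(T (2 * i)) → p ∉ π) ∧
            (∀ i < d, ∀ p : ℕ, p.Prime →
              p ∣ Nat.card ↥(T (2 * i + 2)) / Nat.card ↥(T (2 * i + 1)) → p ∈ π) := by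
  rintro π - hπ G _ _ ⟨m, S, s0, s1, s2, s3, s4⟩ H hH1 hH2 d hd
  have hG : PSol π G := by
    refine ⟨m, S, s0, s1, s2, s3, fun i hi => ?_⟩
    have hinv : Inv (S (i + 1)) (S i) := Inv.of_normal _ (s3 i)
    rcases s4 i hi with h | ⟨q, hq, h⟩
    · left
      rw [PF.iff_relIndex hinv]
      rw [ratio_eq (s2 i)] at h
      exact ⟨relIndex_ne_zero _ _, fun p hp hd => h p hp hd⟩
    · right
      refine ⟨q, hq, ?_⟩
      rw [PF.iff_relIndex hinv]
      rw [ratio_eq (s2 i)] at h
      exact ⟨relIndex_ne_zero _ _, fun p hp hd => h p hp hd⟩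
  have hH : IsHall π H := by
    refine ⟨PF.bot_iff.2 ⟨Nat.card_pos.ne', hH1⟩, ?_, fun p hp hd => hH2 p hp hd⟩
    have h : H.index = Nat.card (G ⧸ H) := rfl
    rw [h]; exact Nat.card_pos.ne'
  have hDS : DS H d ≤ ⊥ := by
    rw [DS.eq_map_derivedSeries, hd, Subgroup.map_bot]
  obtain ⟨T, t0, t1, t2, t3, t4, t5⟩ := Len.chain (inferInstance : (⊥ : Subgroup G).Normal)
    (hT π hπ (Nat.card G) G H ⊥ le_rfl hG hH inferInstance d hDS)
  refine ⟨T, t0, t1, t2, t3, fun i hi p hp hpd => ?_, fun i hi p hp hpd => ?_⟩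
  · have h := t4 i hi
    rw [PF.iff_relIndex (Inv.of_normal _ (t3 _))] at h
    rw [ratio_eq (t2 _)] at hpd
    exact h.2 p hp hpd
  · have h := t5 i hi
    rw [PF.iff_relIndex (Inv.of_normal _ (t3 _))] at h
    rw [ratio_eq (t2 _)] at hpd
    exact h.2 p hp hpd

theorem induction_all (π : Set ℕ) (hπ : ∀ p ∈ π, p.Prime) (isyl : InvSylStm) (hh : HHStm)
    (hE : ∀ n, MTStm π n → EStm π n) (hPE : ∀ n, EStm π n → PEStm π (n + 1))
    (hT : ∀ n, PEStm π n → TStm π n) (hMS : ∀ n, TStm π n → PEStm π n → MSStm π n) :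
    ∀ n, MTStm π n ∧ TStm π n := by
  intro n
  induction n with
  | zero =>
    constructor
    · intro p _ k G V _ _ _ _ _ _ _ _ ρ L hp hcard
      have : 0 < Nat.card G := Nat.card_pos
      omega
    · intro G _ _ L N hcard
      have : 0 < Nat.card G := Nat.card_pos
      omega
  | succ n ih =>
    have h1 := hPE n (hE n ih.1)
    have h2 := hT _ h1
    exact ⟨mtStep π hπ isyl hh n ih.1 (hMS _ h2 h1) h2, h2⟩

end Pool.Agent.TH62.PL
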