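import Pool.Agent.TH62.PL.Rep
import Pool.Agent.TH62.PL.Hall
import Pool.Agent.TH62.PL.Stms2
import Pool.Agent.Helper407.PLMod

set_option autoImplicit false

/-! Sub- and quotient representations, faithful quotient, fixed vectors. -/

namespace Pool.Agent.TH62.PL

section
variable {G k V V' : Type} [Group G] [Field k] [AddCommGroup V] [Module k V]
  [AddCommGroup V'] [Module k V']

lemma map_cm (φ : V →ₗ[k] V') (ρ : G →* Module.End k V) (ρ' : G →* Module.End k V')
    (h : ∀ g v, φ (ρ g v) = ρ' g (φ v)) (W : Submodule k V) (D : Subgroup G) :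
    (cm ρ W D).map φ = cm ρ' (W.map φ) D := by
  apply le_antisymm
  · rw [Submodule.map_le_iff_le_comap, cm_le]
    intro g hg w hw
    rw [Submodule.mem_comap, map_sub, h]
    exact mem_cm hg (Submodule.mem_map_of_mem hw)
  · rw [cm_le]
    rintro g hg _ ⟨w, hw, rfl⟩
    rw [← h, ← map_sub]
    exact Submodule.mem_map_of_mem (mem_cm hg hw)

lemma map_VC (φ : V →ₗ[k] V') (ρ : G →* Module.End k V) (ρ' : G →* Module.End k V')
    (h : ∀ g v, φ (ρ g v) = ρ' g (φ v)) (W : Submodule k V) (D : ℕ → Subgroup G) (n : ℕ) :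
    (VC ρ D W n).map φ = VC ρ' D (W.map φ) n := by
  induction n with
  | zero => rfl
  | succ n ih =>
    change (cm ρ (VC ρ D W n) (D n)).map φ = cm ρ' _ _
    rw [map_cm φ ρ ρ' h, ih]

/-- representation on an invariant submodule -/
def subRep (ρ : G →* Module.End k V) (W : Submodule k V) (hW : ∀ g, ∀ w ∈ W, ρ g w ∈ W) :
    G →* Module.End k W where
  toFun g := (ρ g).restrict (fun w hw => hW g w hw)
  map_one' := by ext; simp [LinearMap.restrict_apply]
  map_mul' a b := by ext; simp [LinearMap.restrict_apply]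

@[simp] lemma subRep_apply (ρ : G →* Module.End k V) (W : Submodule k V)
    (hW : ∀ g, ∀ w ∈ W, ρ g w ∈ W) (g : G) (w : W) : ((subRep ρ W hW g w : W) : V) = ρ g w := rfl

/-- representation on a quotient module -/
def quoRep (ρ : G →* Module.End k V) (W : Submodule k V) (hW : ∀ g, ∀ w ∈ W, ρ g w ∈ W) :
    G →* Module.End k (V ⧸ W) where
  toFun g := W.mapQ W (ρ g) (fun w hw => hW g w hw)
  map_one' := by ext; simp
  map_mul' a b := by ext; simp

@[simp] lemma quoRep_apply (ρ : G →* Module.End k V) (W : Submodule k V)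
    (hW : ∀ g, ∀ w ∈ W, ρ g w ∈ W) (g : G) (v : V) :
    quoRep ρ W hW g (Submodule.Quotient.mk v) = Submodule.Quotient.mk (ρ g v) := rfl

lemma VC_subRep {ρ : G →* Module.End k V} {W : Submodule k V} (hW : ∀ g, ∀ w ∈ W, ρ g w ∈ W)
    {D : ℕ → Subgroup G} {n : ℕ} (h : VC ρ D ⊤ n = ⊥) : VC (subRep ρ W hW) D ⊤ n = ⊥ := by
  have h1 := map_VC W.subtype (subRep ρ W hW) ρ (fun _ _ => rfl) ⊤ D n
  have h2 : VC ρ D ((⊤ : Submodule k W).map W.subtype) n = ⊥ := by
    rw [eq_bot_iff, ← h]; exact VC_mono le_top n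
  rw [h2, ← Submodule.map_bot W.subtype] at h1
  exact Submodule.map_injective_of_injective W.injective_subtype h1

lemma VC_quoRep {ρ : G →* Module.End k V} {W : Submodule k V} (hW : ∀ g, ∀ w ∈ W, ρ g w ∈ W)
    {D : ℕ → Subgroup G} {n : ℕ} (h : VC ρ D ⊤ n = ⊥) : VC (quoRep ρ W hW) D ⊤ n = ⊥ := by
  have h1 := map_VC W.mkQ ρ (quoRep ρ W hW) (fun _ _ => rfl) ⊤ D n
  rw [h, Submodule.map_bot, Submodule.map_top, Submodule.range_mkQ] at h1
  exact h1.symm

lemma cm_comp {G' : Type} [Group G'] (f : G →* G') (ρ' : G' →* Module.End k V) (D : Subgroup G)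
    (W : Submodule k V) : cm ρ' W (D.map f) = cm (ρ'.comp f) W D := by
  apply le_antisymm
  · rw [cm_le]
    rintro _ ⟨g, hg, rfl⟩ w hw
    exact mem_cm (ρ := ρ'.comp f) hg hw
  · rw [cm_le]
    intro g hg w hw
    exact mem_cm (ρ := ρ') (Subgroup.mem_map_of_mem f hg) hw

lemma VC_comp {G' : Type} [Group G'] (f : G →* G') (ρ' : G' →* Module.End k V)
    (D : ℕ → Subgroup G) (W : Submodule k V) (n : ℕ) :
    VC ρ' (fun i => (D i).map f) W n = VC (ρ'.comp f) D W n := by
  induction n with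
  | zero => rfl
  | succ n ih =>
    change cm ρ' _ _ = cm (ρ'.comp f) _ _
    rw [ih, cm_comp]

lemma VC_comp_DS {G' : Type} [Group G'] (f : G →* G') (ρ' : G' →* Module.End k V)
    (L : Subgroup G) (W : Submodule k V) (n : ℕ) :
    VC ρ' (DS (L.map f)) W n = VC (ρ'.comp f) (DS L) W n := by
  rw [← VC_comp]
  congr 1
  funext i
  exact (DS.map f L i).symm

/-- restriction to a subgroup containing `L` -/
lemma VC_restrict (ρ : G →* Module.End k V) {L K : Subgroup G} (h : L ≤ K) (W : Submodule k V)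
    (n : ℕ) : VC (ρ.comp K.subtype) (DS (L.subgroupOf K)) W n = VC ρ (DS L) W n := by
  rw [← VC_comp_DS, Subgroup.map_subgroupOf_eq_of_le h]

end

section
variable {p : ℕ} [Fact p.Prime] {G k V : Type} [Group G] [Finite G] [Field k] [CharP k p]
  [AddCommGroup V] [Module k V]

omit [Fact p.Prime] [Finite G] in
lemma PF.isPGroup {A : Subgroup G} (h : PF {p} ⊥ A) : IsPGroup p A := by
  rintro ⟨x, hx⟩
  obtain ⟨m, hm, hm'⟩ := h x hx
  obtain ⟨t, rfl⟩ := hm.eq_prime_pow
  exact ⟨t, Subtype.ext (Subgroup.mem_bot.1 hm')⟩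

omit [Finite G] in
lemma PF.of_isPGroup {A : Subgroup G} (h : IsPGroup p A) : PF {p} ⊥ A := by
  intro x hx
  obtain ⟨t, ht⟩ := h ⟨x, hx⟩
  exact ⟨p ^ t, PN.prime_pow Fact.out t, Subgroup.mem_bot.2 (congrArg Subtype.val ht)⟩

/-- a faithful irreducible group has no normal `p`-subgroup -/
lemma op_eq_bot (ρ : G →* Module.End k V) (hf : ρ.ker = ⊥) [Nontrivial V]
    (hirr : ∀ W : Submodule k V, (∀ g, ∀ w ∈ W, ρ g w ∈ W) → W = ⊥ ∨ W = ⊤)
    {N : Subgroup G} (hN : N.Normal) (h : PF {p} ⊥ N) : N = ⊥ := by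
  let F : Submodule k V :=
    { carrier := {v | ∀ n ∈ N, ρ n v = v}
      zero_mem' := fun n _ => map_zero _
      add_mem' := fun {a b} ha hb n hn => by rw [map_add, ha n hn, hb n hn]
      smul_mem' := fun c {a} ha n hn => by rw [map_smul, ha n hn] }
  have hF : ∀ g, ∀ w ∈ F, ρ g w ∈ F := by
    intro g w hw n hn
    have h1 : g⁻¹ * n * g ∈ N := by simpa using hN.conj_mem n hn g⁻¹
    have h2 := hw _ h1
    have h3 : ρ n (ρ g w) = ρ g (ρ (g⁻¹ * n * g) w) := by
      rw [← rho_mul, ← rho_mul]; congr 2; group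
    rw [h3, h2]
  obtain ⟨v, -, hv0, hv⟩ := Helper407.PL.exists_fixed_sub (p := p) ρ h.isPGroup ⊤
    (top_ne_bot : (⊤ : Submodule k V) ≠ ⊥) (fun _ _ _ _ => trivial)
  rcases hirr F hF with h1 | h1
  · exfalso
    apply hv0
    have : v ∈ F := hv
    rw [h1] at this
    exact this
  · rw [eq_bot_iff]
    intro n hn
    rw [← hf, MonoidHom.mem_ker]
    ext w
    have : w ∈ F := by rw [h1]; trivial
    exact this n hn

omit [Fact p.Prime] [Finite G] in
/-- elements acting trivially on `W` and `V/W` -/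
lemma unip_ker (ρ : G →* Module.End k V) (W : Submodule k V) (hW : ∀ g, ∀ w ∈ W, ρ g w ∈ W)
    {g : G} (h1 : subRep ρ W hW g = 1) (h2 : quoRep ρ W hW g = 1) : ρ (g ^ p) = 1 := by
  rw [map_pow]
  apply pow_char (k := k)
  ext v
  have e2 : ρ g v - v ∈ W := by
    have := congrArg (fun T : Module.End k (V ⧸ W) => T (Submodule.Quotient.mk v)) h2
    simp only [quoRep_apply, Module.End.one_apply] at this
    exact (Submodule.Quotient.eq W).1 this
  have e1 : ρ g (ρ g v - v) = ρ g v - v := by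
    have := congrArg (fun T : Module.End k W => (T ⟨_, e2⟩ : V)) h1
    simpa using this
  have : ((ρ g - 1) * (ρ g - 1)) v = ρ g (ρ g v - v) - (ρ g v - v) := rfl
  rw [this, e1, sub_self]; rfl

end

end Pool.Agent.TH62.PL
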