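import Pool.Agent.TH62.PL.Defs

set_option autoImplicit false

/-!
Statements of the lemmas used in the proof that the pi-length of a finite pi-soluble group is at
most the derived length of a Hall pi-subgroup.
-/

namespace Pool.Agent.TH62.PL

/-- Lemma I, core: transitive case -/
def LemICoreStm : Prop :=
  ∀ (p : ℕ) [Fact p.Prime] (k G V Ω : Type) [Field k] [CharP k p] [Group G] [Finite G]
    [AddCommGroup V] [Module k V] [Fintype Ω] [MulAction G Ω] [MulAction.IsPretransitive G Ω]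
    [Nontrivial V] (ρ : G →* Module.End k V) (e : Ω → Module.End k V), PS ρ e →
    Group.IsSolvable G → ∀ i : ℕ, VC ρ (DS (⊤ : Subgroup G)) ⊤ (i + 1) = ⊥ →
    ∀ g ∈ DS (⊤ : Subgroup G) i, ∀ ω : Ω, g • ω = ω

/-- Lemma I, general form -/
def LemIStm : Prop :=
  ∀ (p : ℕ) [Fact p.Prime] (k G V Ω : Type) [Field k] [CharP k p] [Group G] [Finite G]
    [AddCommGroup V] [Module k V] [Fintype Ω] [MulAction G Ω]
    (ρ : G →* Module.End k V) (e : Ω → Module.End k V), PS ρ e →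
    ∀ L : Subgroup G, Group.IsSolvable L → ∀ (j : ℕ) (ω : Ω), (∃ g ∈ DS L j, g • ω ≠ ω) →
    ∀ v : V, ∃ w ∈ VC ρ (DS L) ⊤ (j + 1), e ω w = e ω v

/-- decomposition under an abelian normal subgroup -/
def CharDecStm : Prop :=
  ∀ (k G V : Type) [Field k] [IsAlgClosed k] [Group G] [Finite G] [AddCommGroup V] [Module k V]
    (ρ : G →* Module.End k V) (Z : Subgroup G), Z.Normal → (∀ x ∈ Z, ∀ y ∈ Z, x * y = y * x) →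
    ((Nat.card Z : ℕ) : k) ≠ 0 →
    ∃ (Ω : Type) (_ : Fintype Ω) (_ : MulAction G Ω) (e : Ω → Module.End k V) (χ : Ω → G → k),
      PS ρ e ∧ (∀ ω, ∀ z ∈ Z, ρ z * e ω = χ ω z • e ω) ∧
      (∀ ω, ∀ z ∈ Z, ∀ z' ∈ Z, χ ω (z * z') = χ ω z * χ ω z') ∧
      (∀ ω, ∀ z ∈ Z, χ ω z ≠ 0) ∧
      (∀ g ω, ∀ z ∈ Z, χ (g • ω) (g * z * g⁻¹) = χ ω z) ∧
      (∀ ω ω', (∀ z ∈ Z, χ ω z = χ ω' z) → ω = ω')

/-- weight vectors for commuting involutions preserving a pairing of odd order -/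
def LemWStm : Prop :=
  ∀ (k M : Type) [Field k] [CommGroup M] (β : M → M → k),
    (∀ x y z, β (x * y) z = β x z * β y z) → (∀ x y z, β x (y * z) = β x y * β x z) →
    (∀ x y, β x y ≠ 0) → (∀ x y, β x y ^ 2 = 1 → β x y = 1) →
    ∀ s : Finset (MulAut M), (∀ h ∈ s, ∀ x, h (h x) = x) →
    (∀ h ∈ s, ∀ h' ∈ s, ∀ x, h (h' x) = h' (h x)) → (∀ h ∈ s, ∀ x y, β (h x) (h y) = β x y) →
    ∀ g : MulAut M, (∀ x, g (g x) = x) → (∀ h ∈ s, ∀ x, h (g x) = g (h x)) →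
    (∀ x y, β (g x) (g y) = β x y) → ∀ x w : M, β (g x * x⁻¹) w ≠ 1 →
    ∃ y u : M, g y = y⁻¹ ∧ g u = u⁻¹ ∧ β y u ≠ 1 ∧
      ∀ h ∈ s, (h y = y ∧ h u = u) ∨ (h y = y⁻¹ ∧ h u = u⁻¹)

/-- operators inducing distinct involutions on `Q` modulo the radical are linearly independent -/
def SepF2Stm : Prop :=
  ∀ (q : ℕ) [Fact q.Prime] (k G V : Type) [Field k] [Group G] [Finite G] [AddCommGroup V]
    [Module k V] (ρ : G →* Module.End k V) (Q Z : Subgroup G) (e : Module.End k V) (c : G → k),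
    q ≠ 2 → WC q ρ Q Z e c → ∀ s : Finset G, s.Nonempty → ∀ a : G → k, (∀ g ∈ s, a g ≠ 0) →
    (∀ g ∈ s, ∀ z ∈ Z, g * z = z * g) → (∀ g ∈ s, ∀ x ∈ Q, g * g * x = x * (g * g)) →
    (∀ g ∈ s, ∀ g' ∈ s, ∀ x ∈ Q, (g * g') * x * (g * g')⁻¹ = (g' * g) * x * (g' * g)⁻¹) →
    ∑ g ∈ s, a g • (ρ g * e) = 0 → ∃ g ∈ s, ∃ g' ∈ s, g ≠ g' ∧ TrivOn Q c (g⁻¹ * g')

/-- quadratic action in odd characteristic, `q` odd -/
def F3OddStm : Prop :=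
  ∀ (p q : ℕ) [Fact p.Prime] [Fact q.Prime] (k G V : Type) [Field k] [CharP k p] [Group G]
    [Finite G] [AddCommGroup V] [Module k V] (ρ : G →* Module.End k V) (Q Z : Subgroup G)
    (e : Module.End k V) (c : G → k), p ≠ q → p ≠ 2 → q ≠ 2 → WC q ρ Q Z e c →
    ∀ a : G, (∀ z ∈ Z, a * z = z * a) → ρ a * e = e * ρ a → (ρ a - 1) * (ρ a - 1) * e = 0 →
    (∀ x ∈ Q, a ^ p * x = x * a ^ p) → TrivOn Q c a

/-- quadratic action in odd characteristic, `q = 2` -/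
def F3TwoStm : Prop :=
  ∀ (p : ℕ) [Fact p.Prime] (k G V : Type) [Field k] [CharP k p] [Group G]
    [Finite G] [AddCommGroup V] [Module k V] (ρ : G →* Module.End k V) (Q Z : Subgroup G)
    (e : Module.End k V) (c : G → k), p ≠ 2 → WC 2 ρ Q Z e c →
    ∀ a : G, (∀ z ∈ Z, a * z = z * a) → ρ a * e = e * ρ a → (ρ a - 1) * (ρ a - 1) * e = 0 →
    (∀ x ∈ Q, a ^ p * x = x * a ^ p) →
    ∀ x ∈ Q, c (x * (a * x * a⁻¹) * x⁻¹ * (a * x * a⁻¹)⁻¹) = 1 →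
    ∀ y ∈ Q, c ((a * x * a⁻¹ * x⁻¹) * y * (a * x * a⁻¹ * x⁻¹)⁻¹ * y⁻¹) = 1

/-- odd order groups acting on a symplectic space over `F_2` -/
def Odd2Stm : Prop :=
  ∀ (k G : Type) [Field k] [Group G] [Finite G] (Q Z : Subgroup G) (c : G → k), (2 : k) ≠ 0 →
    QC 2 Q Z c → ∀ B : Subgroup G, (∀ b ∈ B, Odd (orderOf b)) →
    (∀ b ∈ B, ∀ z ∈ Z, c (b * z * b⁻¹) = c z) →
    (∀ a ∈ ⁅B, B⁆, ∀ a' ∈ ⁅B, B⁆, ∀ x ∈ Q,
      (a * a') * x * (a * a')⁻¹ = (a' * a) * x * (a' * a)⁻¹) →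
    (∀ a ∈ ⁅B, B⁆, ∀ x ∈ Q, c (x * (a * x * a⁻¹) * x⁻¹ * (a * x * a⁻¹)⁻¹) = 1 →
      ∀ y ∈ Q, c ((a * x * a⁻¹ * x⁻¹) * y * (a * x * a⁻¹ * x⁻¹)⁻¹ * y⁻¹) = 1) →
    ∀ a ∈ ⁅B, B⁆, TrivOn Q c a

/-- Schur–Zassenhaus: conjugacy for solvable complements -/
def SZStm : Prop :=
  ∀ (G : Type) [Group G] [Finite G] (N H K : Subgroup G), N.Normal →
    (Nat.card N).Coprime N.index → N.IsComplement' H → N.IsComplement' K →
    Group.IsSolvable H → ∃ g : G, ∀ x, x ∈ K ↔ g⁻¹ * x * g ∈ H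

/-- invariant Sylow subgroups under coprime action of a solvable group, with Frattini argument -/
def InvSylStm : Prop :=
  ∀ (G : Type) [Group G] [Finite G] (M L : Subgroup G), M.Normal →
    (Nat.card M).Coprime (Nat.card L) → Group.IsSolvable L → ∀ (q : ℕ) [Fact q.Prime],
    ∃ Q : Subgroup G, Q ≤ M ∧ IsPGroup q Q ∧ ¬ q ∣ Q.relIndex M ∧
      (∀ g ∈ L, ∀ x ∈ Q, g * x * g⁻¹ ∈ Q) ∧
      ∀ g : G, ∃ m ∈ M, ∃ t, (∀ x ∈ Q, t * x * t⁻¹ ∈ Q) ∧ g = m * t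

/-- Frattini argument for solvable Hall subgroups -/
def FrHStm : Prop :=
  ∀ (G : Type) [Group G] [Finite G] (M P : Subgroup G), M.Normal → (M ⊔ P).Normal →
    (Nat.card M).Coprime (Nat.card P) → Group.IsSolvable P →
    ∀ g : G, ∃ m ∈ M, ∃ t, (∀ x ∈ P, t * x * t⁻¹ ∈ P) ∧ g = m * t

/-- Hall–Higman Lemma 1.2.3 for `O_π' O_π` -/
def HHStm : Prop :=
  ∀ (π : Set ℕ) (G : Type) [Group G] [Finite G], PSol π G → ∀ M R : Subgroup G, M.Normal →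
    R.Normal → PF πᶜ ⊥ M → PF π ⊥ R → (∀ N : Subgroup G, N.Normal → PF πᶜ ⊥ N → N ≤ M) →
    (∀ N : Subgroup G, N.Normal → PF π ⊥ N → N ≤ R) →
    ∀ x : G, (∀ y ∈ M ⊔ R, x * y = y * x) → x ∈ M ⊔ R

/-- selection of a section -/
def SelStm : Prop :=
  ∀ (σ : Set ℕ) (G : Type) [Group G] [Finite G] (Φ : Subgroup G → Prop), Φ ⊤ →
    (∀ A B : Subgroup G, A.Normal → B.Normal → Φ A → Φ B → Φ (A ⊓ B)) →
    (∀ A B : Subgroup G, A.Normal → B.Normal → A ≤ B → Φ A → Φ B) →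
    (∀ A B : Subgroup G, A.Normal → B.Normal → A ≤ B → PF σ A B → Φ B → Φ A) →
    ∀ P : Subgroup G, P.Normal → PF σ ⊥ P → Group.IsSolvable P →
    (∀ C : Subgroup G, (∀ g, g ∈ C ↔ ∀ x ∈ P, g * x = x * g) → ¬ Φ C) →
    ∃ (r : ℕ) (P₁ P₂ : Subgroup G), r.Prime ∧ r ∈ σ ∧ P₁.Normal ∧ P₂.Normal ∧ P₂ ≤ P₁ ∧
      P₁ ≤ P ∧ P₂ ≠ P₁ ∧ (∀ Y : Subgroup G, Y.Normal → Y ≤ P₁ → Y = P₁ ∨ Y ≤ P₂) ∧
      PF {r} ⊥ P₁ ∧ ⁅P₁, P₁⁆ ≤ P₂ ∧ ⁅P₁, P₂⁆ = ⊥ ∧ (∀ x ∈ P₁, x ^ r ∈ P₂) ∧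
      (∀ C : Subgroup G, (∀ g, g ∈ C ↔ ∀ x ∈ P₁, g * x = x * g) → ¬ Φ C) ∧
      (∀ C : Subgroup G, (∀ g, g ∈ C ↔ ∀ x ∈ P₁, g * x * g⁻¹ * x⁻¹ ∈ P₂) → ¬ Φ C)

end Pool.Agent.TH62.PL
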