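import Pool.Agent.TH62.PL.MTa
import Pool.Agent.TH62.PL.Stms

set_option autoImplicit false

/-! The irreducible faithful case of the main module theorem. -/

namespace Pool.Agent.TH62.PL

open scoped commutatorElement

section
variable {G : Type} [Group G] {π σ : Set ℕ}

lemma coprime_pow_mem {A : Subgroup G} {x : G} {m n : ℕ} (hc : m.Coprime n) (hm : x ^ m ∈ A)
    (hn : x ^ n ∈ A) : x ∈ A := by
  have h3 : x ^ (1 : ℤ) ∈ A := by
    have h4 : (1 : ℤ) = m * Nat.gcdA m n + n * Nat.gcdB m n := by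
      rw [← Nat.gcd_eq_gcd_ab, hc]; rfl
    rw [h4, zpow_add, zpow_mul, zpow_mul, zpow_natCast, zpow_natCast]
    exact A.mul_mem (A.zpow_mem hm _) (A.zpow_mem hn _)
  simpa using h3

lemma mem_norm_of_finite [Finite G] {Q : Subgroup G} {t : G} (h : ∀ x ∈ Q, t * x * t⁻¹ ∈ Q) :
    ∀ x, x ∈ Q ↔ t * x * t⁻¹ ∈ Q := by
  intro x
  refine ⟨h x, fun hx => ?_⟩
  have h1 : Q.map (MulAut.conj t).toMonoidHom ≤ Q := by
    rintro _ ⟨y, hy, rfl⟩
    exact h y hy
  have h2 : Nat.card (Q.map (MulAut.conj t).toMonoidHom) = Nat.card Q :=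
    Subgroup.card_map_of_injective (MulAut.conj t).injective
  have h3 : Q.map (MulAut.conj t).toMonoidHom = Q := Subgroup.eq_of_le_of_card_ge h1 h2.ge
  rw [← h3] at hx
  obtain ⟨y, hy, hyx⟩ := hx
  have : y = x := by
    have h4 : t * y * t⁻¹ = t * x * t⁻¹ := hyx
    exact mul_left_cancel (mul_right_cancel h4)
  rwa [← this]

/-- the smallest normal subgroup with quotient of length at most `n` -/
lemma exists_min_len [Finite G] (π : Set ℕ) (n : ℕ) : ∃ Z : Subgroup G, Z.Normal ∧ Len π n Z ∧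
    ∀ N : Subgroup G, N.Normal → Len π n N → Z ≤ N := by
  obtain ⟨Z, hZ⟩ := Set.Finite.exists_minimal
    (Set.toFinite {Z : Subgroup G | Z.Normal ∧ Len π n Z}) ⟨⊤, inferInstance, Len.top n⟩
  refine ⟨Z, hZ.1.1, hZ.1.2, fun N hN hN' => ?_⟩
  have hZn := hZ.1.1
  have h1 : Z ⊓ N ∈ {Z : Subgroup G | Z.Normal ∧ Len π n Z} :=
    ⟨Subgroup.normal_inf_normal Z N, hZ.1.2.inf hN'⟩
  exact (hZ.2 h1 inf_le_left).trans inf_le_right

end

section
variable {G k V : Type} [Group G] [Finite G] [Field k] [AddCommGroup V] [Module k V]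

/-- the last derived subgroup centralises `O_π` in the irreducible case -/
lemma A_R_commute (p : ℕ) [Fact p.Prime] [CharP k p] {π : Set ℕ} (ρ : G →* Module.End k V) (hf : ρ.ker = ⊥) [Nontrivial V]
    (hirr : ∀ W : Submodule k V, (∀ g, ∀ w ∈ W, ρ g w ∈ W) → W = ⊥ ∨ W = ⊤)
    {L : Subgroup G} (hL : IsHall π L) {l : ℕ} (hl : l ≠ 0) (hV : VC ρ (DS L) ⊤ (l + 1) = ⊥)
    {R : Subgroup G} (hR : R.Normal) (hRπ : PF π ⊥ R) :
    ∀ a ∈ DS L l, ∀ r ∈ R, a * r = r * a := by
  have hRL : R ≤ L := hL.normal_le hR hRπ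
  have hker : ∀ g, ρ g = 1 → g = 1 := by
    intro g hg
    have : g ∈ ρ.ker := MonoidHom.mem_ker.2 hg
    rw [hf] at this
    exact Subgroup.mem_bot.1 this
  have hap : ∀ a ∈ DS L l, a ^ p = 1 := fun a ha => hker _ (pow_DS (p := p) hl hV ha)
  have hinvA : Inv R (DS L l) := (DS.inv L l).mono hRL
  -- A ∩ R = 1
  have hbot : DS L l ⊓ R = ⊥ := by
    set A' : Subgroup R := (DS L l).subgroupOf R with hA'
    have hA'n : A'.Normal := ⟨fun x hx g => by
      rw [hA', Subgroup.mem_subgroupOf] at hx ⊢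
      exact hinvA g g.2 x hx⟩
    obtain ⟨O, hOn, -, hO, hOmax⟩ := exists_core {p} (⊥ : Subgroup R) inferInstance
    have hA'p : PF {p} ⊥ A' := by
      intro x hx
      rw [hA', Subgroup.mem_subgroupOf] at hx
      refine ⟨p, PN.prime Fact.out rfl, ?_⟩
      rw [Subgroup.mem_bot]
      exact Subtype.ext (hap _ hx)
    have hA'O : A' ≤ O := hOmax A' hA'n bot_le hA'p
    have hOn' : (O.map R.subtype).Normal := by
      refine ⟨?_⟩
      rintro _ ⟨x, hx, rfl⟩ g
      have h1 := core_map hOn bot_le hO hOmax (MulAut.conjNormal g) (Subgroup.map_bot _)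
      exact ⟨MulAut.conjNormal g x, h1 ⟨x, hx, rfl⟩, MulAut.conjNormal_apply g x⟩
    have hOp : PF {p} ⊥ (O.map R.subtype) := by
      have := hO.map R.subtype
      rwa [Subgroup.map_bot] at this
    have hO0 := op_eq_bot (p := p) ρ hf hirr hOn' hOp
    rw [eq_bot_iff]
    rintro x ⟨hx, hxR⟩
    have h2 : (⟨x, hxR⟩ : R) ∈ O := hA'O (by rw [hA', Subgroup.mem_subgroupOf]; exact hx)
    have h3 : x ∈ O.map R.subtype := ⟨⟨x, hxR⟩, h2, rfl⟩
    rwa [hO0] at h3
  intro a ha r hr
  have h1 : a * r * a⁻¹ * r⁻¹ ∈ DS L l ⊓ R := by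
    refine ⟨?_, R.mul_mem (hR.conj_mem r hr a) (R.inv_mem hr)⟩
    have h2 := hinvA r hr a⁻¹ ((DS L l).inv_mem ha)
    have h3 := (DS L l).mul_mem ha h2
    simpa [mul_assoc] using h3
  rw [hbot, Subgroup.mem_bot] at h1
  have h4 : a * r * a⁻¹ * r⁻¹ * (r * a) = r * a := by rw [h1, one_mul]
  rw [← h4]; group

end

section
variable {G : Type} [Group G] [Finite G] {π : Set ℕ}

/-- the group-theoretic end of the irreducible case -/
lemma fl_of_local (hh : HHStm) (hG : PSol π G) {L : Subgroup G}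
    (hL : IsHall π L) (l : ℕ) (M R : Subgroup G) (hMn : M.Normal) (hRn : R.Normal)
    (hM : PF πᶜ ⊥ M) (hR : PF π ⊥ R) (hMmax : ∀ N : Subgroup G, N.Normal → PF πᶜ ⊥ N → N ≤ M)
    (hRmax : ∀ N : Subgroup G, N.Normal → PF π ⊥ N → N ≤ R)
    (hCR : Len π l (Subgroup.centralizer (R : Set G)))
    (hloc : ∀ q : ℕ, q.Prime → q ∉ π → ∃ Q : Subgroup G, Q ≤ M ∧ ¬ q ∣ Q.relIndex M ∧
      (∀ g ∈ L, ∀ x ∈ Q, g * x * g⁻¹ ∈ Q) ∧
      (Subgroup.centralizer (Q : Set G) ⊔ M).Normal ∧
      Len π l (Subgroup.centralizer (Q : Set G) ⊔ M)) : FL π l (⊥ : Subgroup G) := by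
  obtain ⟨Z, hZn, hZlen, hZmin⟩ := exists_min_len (G := G) π l
  have hcardM : PN πᶜ (Nat.card M) := PF.bot_iff.1 hM
  -- L ∩ Z centralises M
  have hLZ : L ⊓ Z ≤ Subgroup.centralizer (M : Set G) := by
    rintro x ⟨hxL, hxZ⟩
    have hle : M ≤ Subgroup.centralizer ({x} : Set G) := by
      rw [← Subgroup.relIndex_eq_one]
      by_contra hne
      obtain ⟨q, hq, hqd⟩ := Nat.exists_prime_and_dvd hne
      have hqπ : q ∉ π := hcardM.2 q hq (hqd.trans (Subgroup.relIndex_dvd_card _ _))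
      obtain ⟨Q, hQM, hQd, hQL, hNn, hNlen⟩ := hloc q hq hqπ
      apply hQd
      refine hqd.trans (Subgroup.relIndex_dvd_of_le_left M ?_)
      -- Q ≤ C(x)
      have hxN := hZmin _ hNn hNlen hxZ
      obtain ⟨c, hc, m, hm, hxcm⟩ := (mem_sup_inv (Inv.of_normal _ hMn)).1 hxN
      rw [Subgroup.mem_centralizer_iff] at hc
      have hact : ∀ y ∈ Q, x * y * x⁻¹ = m * y * m⁻¹ := by
        intro y hy
        have h1 := hQL x hxL y hy
        have h2 := hc _ h1
        have h3 : m * y * m⁻¹ = c⁻¹ * (x * y * x⁻¹) * c := by rw [hxcm]; group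
        rw [h3, mul_assoc c⁻¹, h2]; group
      have hpow : ∀ t : ℕ, ∀ y ∈ Q, x ^ t * y * (x ^ t)⁻¹ = m ^ t * y * (m ^ t)⁻¹ ∧
          x ^ t * y * (x ^ t)⁻¹ ∈ Q := by
        intro t
        induction t with
        | zero => intro y hy; simpa using hy
        | succ t ih =>
          intro y hy
          obtain ⟨h1, h2⟩ := ih y hy
          have e1 : x ^ (t + 1) * y * (x ^ (t + 1))⁻¹ = x * (x ^ t * y * (x ^ t)⁻¹) * x⁻¹ := by
            rw [pow_succ']; group
          have e2 : m ^ (t + 1) * y * (m ^ (t + 1))⁻¹ = m * (m ^ t * y * (m ^ t)⁻¹) * m⁻¹ := by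
            rw [pow_succ']; group
          exact ⟨by rw [e1, e2, hact _ h2, h1], by rw [e1]; exact hQL x hxL _ h2⟩
      intro y hy
      rw [Subgroup.mem_centralizer_singleton_iff]
      -- x centralises y
      have hx : x ∈ Subgroup.centralizer ({y} : Set G) := by
        have h1 : x ^ (Nat.card M) ∈ Subgroup.centralizer ({y} : Set G) := by
          rw [Subgroup.mem_centralizer_singleton_iff]
          have h2 := (hpow (Nat.card M) y hy).1
          have h3 : m ^ Nat.card M = 1 := by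
            have := pow_card_eq_one' (x := (⟨m, hm⟩ : M))
            exact congrArg Subtype.val this
          rw [h3] at h2
          simp only [one_mul, inv_one, mul_one] at h2
          rw [mul_inv_eq_iff_eq_mul] at h2
          exact h2
        have h4 : x ^ orderOf x ∈ Subgroup.centralizer ({y} : Set G) := by
          rw [pow_orderOf_eq_one]; exact one_mem _
        exact coprime_pow_mem ((hL.1.orderOf hxL).coprime hcardM).symm h1 h4
      rw [Subgroup.mem_centralizer_singleton_iff] at hx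
      exact hx.symm
    rw [Subgroup.mem_centralizer_iff]
    intro m hm
    have := hle hm
    rw [Subgroup.mem_centralizer_singleton_iff] at this
    exact this
  have hCMn : (Subgroup.centralizer (M : Set G)).Normal := inferInstance
  have hZM : Z ≤ Subgroup.centralizer (M : Set G) := by
    have h1 : PF πᶜ (Z ⊓ Subgroup.centralizer (M : Set G)) Z :=
      hL.PF_inf hZn (Inv.of_normal _ (Subgroup.normal_inf_normal _ _))
        (le_inf inf_le_right hLZ)
    exact (hZmin _ (Subgroup.normal_inf_normal _ _) (Len.absorb inf_le_left h1 hZlen)).trans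
      inf_le_right
  have hZR : Z ≤ Subgroup.centralizer (R : Set G) := hZmin _ inferInstance hCR
  have hZMR : Z ≤ M ⊔ R := by
    intro x hx
    refine hh π G hG M R hMn hRn hM hR hMmax hRmax x ?_
    intro y hy
    have h1 : M ⊔ R ≤ Subgroup.centralizer ({x} : Set G) := by
      apply sup_le
      · intro y hy
        rw [Subgroup.mem_centralizer_singleton_iff]
        exact (Subgroup.mem_centralizer_iff.1 (hZM hx) y hy)
      · intro y hy
        rw [Subgroup.mem_centralizer_singleton_iff]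
        exact (Subgroup.mem_centralizer_iff.1 (hZR hx) y hy)
    have h2 := h1 hy
    rw [Subgroup.mem_centralizer_singleton_iff] at h2
    exact h2.symm
  have hMR : M ⊓ R = ⊥ := by
    rw [eq_bot_iff]
    refine PF.le_of_compl (σ := π) ?_ ?_
    · exact hR.mono le_rfl inf_le_right
    · exact hM.mono le_rfl inf_le_left
  have hZR' : PF πᶜ (Z ⊓ R) Z := by
    intro x hx
    obtain ⟨m, hm, r, hr, hxmr⟩ := (mem_sup_inv (Inv.of_normal _ hRn)).1 (hZMR hx)
    have hcomm : Commute m r :=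
      Subgroup.commute_of_normal_of_disjoint M R hMn hRn (disjoint_iff.2 hMR) m r hm hr
    refine ⟨Nat.card M, hcardM, Z.pow_mem hx _, ?_⟩
    rw [hxmr, hcomm.mul_pow]
    have h3 : m ^ Nat.card M = 1 := by
      have := pow_card_eq_one' (x := (⟨m, hm⟩ : M))
      exact congrArg Subtype.val this
    rw [h3, one_mul]
    exact R.pow_mem hr _
  have hZle : Z ≤ R := (hZmin _ (Subgroup.normal_inf_normal _ _)
    (Len.absorb inf_le_left hZR' hZlen)).trans inf_le_right
  exact ⟨Z, hZn, bot_le, hR.mono le_rfl hZle, hZlen⟩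

end

end Pool.Agent.TH62.PL
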