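import Pool.Agent.TH62.PL.MTb

set_option autoImplicit false

/-! The main module theorem: induction step. -/

namespace Pool.Agent.TH62.PL

open scoped commutatorElement

theorem irr_case (π : Set ℕ) (hπ : ∀ p ∈ π, p.Prime) (isyl : InvSylStm) (hh : HHStm) (n : ℕ)
    (hMS : MSStm π n) (hT : TStm π n) (p : ℕ) [Fact p.Prime] (k G V : Type) [Field k]
    [IsAlgClosed k] [CharP k p] [Group G] [Finite G] [AddCommGroup V] [Module k V]
    [FiniteDimensional k V] [Nontrivial V] (ρ : G →* Module.End k V) (L : Subgroup G)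
    (hp : p ∈ π) (hcard : Nat.card G ≤ n) (hG : PSol π G) (hL : IsHall π L) (l : ℕ)
    (hV : VC ρ (DS L) ⊤ (l + 1) = ⊥) (hf : ρ.ker = ⊥)
    (hirr : ∀ W : Submodule k V, (∀ g, ∀ w ∈ W, ρ g w ∈ W) → W = ⊥ ∨ W = ⊤) :
    FL π l (⊥ : Subgroup G) := by
  have hker : ∀ g, ρ g = 1 → g = 1 := by
    intro g hg
    have : g ∈ ρ.ker := MonoidHom.mem_ker.2 hg
    rw [hf] at this
    exact Subgroup.mem_bot.1 this
  rcases Nat.eq_zero_or_pos l with hl | hl
  · subst hl
    have hLbot : L ≤ ⊥ := by
      intro g hg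
      rw [Subgroup.mem_bot]
      apply hker
      ext w
      have h1 : ρ g w - w ∈ cm ρ ⊤ L := mem_cm hg trivial
      have h2 : cm ρ (⊤ : Submodule k V) L = ⊥ := hV
      rw [h2, Submodule.mem_bot, sub_eq_zero] at h1
      exact h1
    exact Len.toFL (n := 0) inferInstance (hL.PF_top inferInstance hLbot)
  have hl0 : l ≠ 0 := hl.ne'
  obtain ⟨M, hMn, -, hM, hMmax⟩ := exists_core πᶜ (⊥ : Subgroup G) inferInstance
  obtain ⟨R, hRn, -, hR, hRmax⟩ := exists_core π (⊥ : Subgroup G) inferInstance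
  have hcomm := A_R_commute p ρ hf hirr hL hl0 hV hRn hR
  have hCR : Len π l (Subgroup.centralizer (R : Set G)) := by
    refine hT G L _ hcard hG hL inferInstance l ?_
    intro a ha
    rw [Subgroup.mem_centralizer_iff]
    intro r hr
    exact (hcomm a ha r hr).symm
  have hcop : (Nat.card M).Coprime (Nat.card L) :=
    PN.coprime' (PF.bot_iff.1 hM) (PF.bot_iff.1 hL.1)
  have hLs : Group.IsSolvable L := hG.isSolvable hπ hL.1
  refine fl_of_local hh hG hL l M R hMn hRn hM hR (fun N hN hN' => hMmax N hN bot_le hN')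
    (fun N hN hN' => hRmax N hN bot_le hN') hCR ?_
  intro q hq hqπ
  have := Fact.mk hq
  obtain ⟨Q, hQM, hQp, hQd, hQL, hQF⟩ := isyl G M L hMn hcop hLs q
  set T : Subgroup G := Subgroup.normalizer (Q : Set G) with hTdef
  have hmemT : ∀ t, (∀ x ∈ Q, t * x * t⁻¹ ∈ Q) → t ∈ T := fun t ht =>
    Subgroup.mem_normalizer_iff.2 (mem_norm_of_finite ht)
  have hLT : L ≤ T := fun g hg => hmemT g (hQL g hg)
  have hQT : Q ≤ T := Subgroup.le_normalizer
  set C : Subgroup G := Subgroup.centralizer (Q : Set G) with hC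
  have hTQ : ∀ t ∈ T, ∀ x ∈ Q, t * x * t⁻¹ ∈ Q := fun t ht x hx =>
    (Subgroup.mem_normalizer_iff.1 ht x).1 hx
  have hTC : Inv T C := by
    intro t ht c hc
    rw [hC, Subgroup.mem_centralizer_iff] at hc ⊢
    intro x hx
    have h1 : t⁻¹ * x * t ∈ Q := by simpa using hTQ t⁻¹ (T.inv_mem ht) x hx
    have h2 := hc _ h1
    calc x * (t * c * t⁻¹) = t * ((t⁻¹ * x * t) * c) * t⁻¹ := by group
      _ = t * (c * (t⁻¹ * x * t)) * t⁻¹ := by rw [h2]
      _ = t * c * t⁻¹ * x := by group
  have hNn : (C ⊔ M).Normal := by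
    refine ⟨fun x hx g => ?_⟩
    obtain ⟨m, hm, t, ht, rfl⟩ := hQF g
    have h1 : Inv T (C ⊔ M) := hTC.sup (Inv.of_normal _ hMn)
    have h2 := h1 t (hmemT t ht) x hx
    have h3 : m * t * x * (m * t)⁻¹ = m * (t * x * t⁻¹) * m⁻¹ := by group
    have hm' : m ∈ C ⊔ M := Subgroup.mem_sup_right hm
    rw [h3]
    exact (C ⊔ M).mul_mem ((C ⊔ M).mul_mem hm' h2) ((C ⊔ M).inv_mem hm')
  refine ⟨Q, hQM, hQd, hQL, hNn, ?_⟩
  -- apply MS to T
  have hlen : Len π l (C.subgroupOf T) := by
    refine hMS p q k T V (ρ.comp T.subtype) (L.subgroupOf T) hp hqπ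
      ((Subgroup.card_le_card_group T).trans hcard) (hG.subgroup T) (hL.subgroupOf hLT) l ?_
      (Q.subgroupOf T) (C.subgroupOf T) ?_ ?_ ?_ ?_
    · rw [VC_restrict ρ hLT]; exact hV
    · exact ⟨fun x hx t => by
        rw [Subgroup.mem_subgroupOf] at hx ⊢
        exact hTQ t t.2 x hx⟩
    · exact hQp.of_injective (Subgroup.subgroupOfEquivOfLe hQT).toMonoidHom
        (Subgroup.subgroupOfEquivOfLe hQT).injective
    · intro x _ hx
      exact Subtype.ext (hker _ hx)
    · intro g
      rw [Subgroup.mem_subgroupOf, hC, Subgroup.mem_centralizer_iff]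
      constructor
      · intro h x hx
        exact Subtype.ext (h x hx).symm
      · intro h x hx
        exact (congrArg Subtype.val (h ⟨x, hQT hx⟩ hx)).symm
  have hCTn : ((C ⊔ M).subgroupOf T).Normal := by
    exact hNn.subgroupOf T
  have hlen2 : Len π l ((C ⊔ M).subgroupOf T) :=
    hlen.mono hCTn (Subgroup.comap_mono le_sup_left)
  refine Len.of_supplement hNn ?_ hlen2
  intro g
  obtain ⟨m, hm, t, ht, rfl⟩ := hQF g
  exact ⟨m, Subgroup.mem_sup_right hm, t, hmemT t ht, rfl⟩

theorem mtStep (π : Set ℕ) (hπ : ∀ p ∈ π, p.Prime) (isyl : InvSylStm) (hh : HHStm) (n : ℕ)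
    (hMT : MTStm π n) (hMS : MSStm π (n + 1)) (hT : TStm π (n + 1)) : MTStm π (n + 1) := by
  intro p _ k G V _ _ _ _ _ _ _ _ ρ L hp hcard hG hL l hV
  obtain ⟨d, hd⟩ : ∃ d, Module.finrank k V = d := ⟨_, rfl⟩
  induction d using Nat.strong_induction_on generalizing V with
  | _ d ih =>
    by_cases hf : ρ.ker = ⊥
    · rcases subsingleton_or_nontrivial V with hs | hnt
      · have : ρ.ker = ⊤ := by
          rw [eq_top_iff]
          intro g _
          rw [MonoidHom.mem_ker]
          ext v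
          exact Subsingleton.elim _ _
        rw [this]
        exact FL.top l
      by_cases hirr : ∀ W : Submodule k V, (∀ g, ∀ w ∈ W, ρ g w ∈ W) → W = ⊥ ∨ W = ⊤
      · rw [hf]
        exact irr_case π hπ isyl hh (n + 1) hMS hT p k G V ρ L hp hcard hG hL l hV hf hirr
      · push Not at hirr
        obtain ⟨W, hW, hW0, hW1⟩ := hirr
        have h1 : FL π l (subRep ρ W hW).ker := by
          refine ih _ ?_ W (subRep ρ W hW) (VC_subRep hW hV) rfl
          rw [← hd]
          exact Submodule.finrank_lt hW1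
        have h2 : FL π l (quoRep ρ W hW).ker := by
          refine ih _ ?_ (V ⧸ W) (quoRep ρ W hW) (VC_quoRep hW hV) rfl
          rw [← hd]
          have h3 := Submodule.finrank_quotient_add_finrank W
          have h4 : 0 < Module.finrank k W := by
            rw [Module.finrank_pos_iff]
            exact (Submodule.nontrivial_iff_ne_bot).2 hW0
          omega
        have h3 := h1.inf h2
        refine FL.absorb ?_ ?_ h3
        · intro g hg
          rw [hf, Subgroup.mem_bot] at hg
          subst hg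
          exact one_mem _
        · rintro g ⟨hg1, hg2⟩
          refine ⟨p, PN.prime Fact.out hp, ?_⟩
          rw [MonoidHom.mem_ker]
          exact unip_ker ρ W hW (MonoidHom.mem_ker.1 hg1) (MonoidHom.mem_ker.1 hg2)
    · -- pass to the faithful quotient
      set f := QuotientGroup.mk' ρ.ker with hfdef
      set ρ' : G ⧸ ρ.ker →* Module.End k V := QuotientGroup.lift ρ.ker ρ le_rfl with hρ'
      have hcomp : ρ'.comp f = ρ := by
        ext g : 1
        rfl
      have hsurj : Function.Surjective f := QuotientGroup.mk'_surjective _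
      have hker' : ρ'.ker = ⊥ := by
        rw [eq_bot_iff]
        intro y hy
        obtain ⟨g, rfl⟩ := hsurj y
        rw [MonoidHom.mem_ker] at hy
        have h1 : ρ g = 1 := by rw [← hcomp]; exact hy
        rw [Subgroup.mem_bot]
        exact (QuotientGroup.eq_one_iff g).2 (MonoidHom.mem_ker.2 h1)
      have hcard' : Nat.card (G ⧸ ρ.ker) ≤ n := by
        have h1 : Nat.card ρ.ker * ρ.ker.index = Nat.card G := Subgroup.card_mul_index _
        have h2 : 1 < Nat.card ρ.ker := (Subgroup.one_lt_card_iff_ne_bot _).2 hf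
        have h3 : ρ.ker.index = Nat.card (G ⧸ ρ.ker) := rfl
        have h4 : 0 < Nat.card (G ⧸ ρ.ker) := Nat.card_pos
        rw [h3] at h1
        have h5 : 2 * Nat.card (G ⧸ ρ.ker) ≤ Nat.card ρ.ker * Nat.card (G ⧸ ρ.ker) :=
          Nat.mul_le_mul_right _ h2
        omega
      have h1 := hMT p k (G ⧸ ρ.ker) V ρ' (L.map f) hp hcard' (hG.map f hsurj)
        (hL.map f hsurj) l (by rw [VC_comp_DS, hcomp]; exact hV)
      have h2 := h1.comap f
      rw [hker', MonoidHom.comap_bot, hfdef, QuotientGroup.ker_mk'] at h2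
      exact h2

end Pool.Agent.TH62.PL
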